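import Pool.Agent.Helper19.TN.EndB

/-!
# Project TN (MP_a41896_nt): END, part C (the steps P1S and F along an ultrafilter)
-/

set_option autoImplicit false

open MvPolynomial

namespace Pool.Agent.Helper19.TN

open WeierstrassCurve Height
open Pool.Agent.Helper29.BL Pool.Agent.Helper92.Ru Pool.Agent.Helper42.SG
open Pool.Agent.Helper5.UN (CodimGT cH)
open Pool.Agent.Helper60.HC (Lo nrs xs)
open Pool.Agent.Helper19.PM

noncomputable section

variable {K : Type} [Field K] [NumberField K] [DecidableEq K] {σ : Type} [Fintype σ]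
  [DecidableEq σ] {W : σ → Affine K}

/-- low along the ultrafilter -/
def LowU (U : Ultrafilter ℕ) (N : (∀ i, (W i).Point) → ℝ) (y : ℕ → ∀ i, (W i).Point)
    (I : Finset σ) : Prop :=
  ∃ (D' : ℕ) (C' : ℝ), ∀ᶠ i in (U : Filter ℕ), ∀ᶠ j in (U : Filter ℕ),
    Lo I D' (C' * (N (y j) / N (y i))) (xs (y j))

theorem not_low {U : Ultrafilter ℕ} {N : (∀ i, (W i).Point) → ℝ} {y : ℕ → ∀ i, (W i).Point}
    {I : Finset σ} (h : ¬ LowU U N y I) (D' : ℕ) (C' : ℝ) :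
    ∀ᶠ i in (U : Filter ℕ), ∀ᶠ j in (U : Filter ℕ),
      ¬ Lo I D' (C' * (N (y j) / N (y i))) (xs (y j)) := by
  by_contra hc
  refine h ⟨D', C', ?_⟩
  have h1 := Ultrafilter.eventually_not.2 hc
  filter_upwards [h1] with i hi
  have h2 := Ultrafilter.eventually_not.2 hi
  filter_upwards [h2] with j hj using not_not.1 hj

/-- the sequence and the ultrafilter -/
structure UD (U : Ultrafilter ℕ) (N : (∀ i, (W i).Point) → ℝ) (y : ℕ → ∀ i, (W i).Point) :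
    Prop where
  nd : ∀ k i, y k i ≠ 0 ∧ ps (y k i) ≠ 0
  gen : ∀ Z : MvPolynomial σ K, Z ≠ 0 → ∀ᶠ k in (U : Filter ℕ), eval (xs (y k)) Z ≠ 0
  big : ∀ R : ℝ, ∀ᶠ k in (U : Filter ℕ), R ≤ N (y k)
  al : ∀ θ K0 : ℝ, 0 < θ → ∀ᶠ i in (U : Filter ℕ), ∀ᶠ j in (U : Filter ℕ),
    Pr N θ K0 (y i) (y j)

theorem single {H : ∀ i, (W i).Point → ℝ} {U : Ultrafilter ℕ} {y : ℕ → ∀ i, (W i).Point}
    (hU : UD U (nrs H) y) {a : σ} {δ : ℝ} (hδ : 0 < δ)
    (hf : ∀ᶠ j in (U : Filter ℕ), δ * nrs H (y j) ≤ hx (y j a)) : ¬ LowU U (nrs H) y {a} := by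
  rintro ⟨D', C', hlo⟩
  obtain ⟨C, hC, hr⟩ := root K σ D'
  obtain ⟨i, hi1, hi2⟩ := (hlo.and (hU.big (2 * |C'| / δ + 1))).exists
  obtain ⟨j, ⟨hj1, hj2⟩, hj3⟩ := ((hi1.and hf).and (hU.big (2 * C / δ + 1))).exists
  have h1 := hr a _ _ hj1
  have h2 : logHeight₁ (xs (y j) a) = hx (y j a) := rfl
  rw [h2] at h1
  have hNi : 0 < nrs H (y i) := by
    have : 0 ≤ 2 * |C'| / δ := by positivity
    linarith
  have hNj : 0 < nrs H (y j) := by
    have : 0 ≤ 2 * C / δ := by positivity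
    linarith
  have h3 : C' * (nrs H (y j) / nrs H (y i)) ≤ δ / 2 * nrs H (y j) := by
    rw [← mul_div_assoc, div_le_iff₀ hNi]
    have h4 : C' ≤ δ / 2 * nrs H (y i) := by
      have h5 : δ / 2 * (2 * |C'| / δ + 1) ≤ δ / 2 * nrs H (y i) :=
        mul_le_mul_of_nonneg_left hi2 (by positivity)
      have h6 : δ / 2 * (2 * |C'| / δ + 1) = |C'| + δ / 2 := by
        field_simp
      have := le_abs_self C'
      linarith
    nlinarith
  have h4 : δ / 2 * (2 * C / δ + 1) ≤ δ / 2 * nrs H (y j) :=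
    mul_le_mul_of_nonneg_left hj3 (by positivity)
  have h6 : δ / 2 * (2 * C / δ + 1) = C + δ / 2 := by
    field_simp
  linarith

theorem p1_step (hP : S_P1S) (hW : ∀ i, (W i).IsElliptic) {H : ∀ i, (W i).Point → ℝ} {c₀ : ℝ}
    (hH : ∀ i, CanH (W i) (H i) c₀) (hQ : IsQuad (nrs H)) {D : ℕ} {ι : Type} [Fintype ι]
    {f : ι → MvPolynomial σ K} (hf : ∀ j i, degreeOf i (f j) ≤ D) (hc : CodimGT D f 1)
    (hD : 1 ≤ D) {ε : ℝ} (hε : 0 < ε) {U : Ultrafilter ℕ} {y : ℕ → ∀ i, (W i).Point}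
    (hU : UD U (nrs H) y) (hoff : ∀ k, ∃ t, eval (xs (y k)) (f t) ≠ 0)
    (hex : ∀ k, ε * nrs H (y k) ≤ cH D f (xs (y k))) (S : Finset σ)
    (hS : ∀ a ∈ S, ∀ δ : ℝ, 0 < δ → ∀ᶠ j in (U : Filter ℕ),
      logHeight₁ (xs (y j) a) ≤ δ * nrs H (y j))
    (hcard : 2 ≤ Fintype.card {i // i ∉ S}) : LowU U (nrs H) y (Finset.univ \ S) := by
  by_contra hno
  obtain ⟨Δ, n, D', C', θ, K0, hΔ, hθ, hC', h1⟩ := hP K σ W hW H c₀ hH D ι f hf hc S 2 (ε / 2)
    hcard hD (by norm_num) (half_pos hε)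
  set θ1 := min (1 / 4) θ with hθ1
  have hθ1p : 0 < θ1 := lt_min (by norm_num) hθ
  set K1 := max 4 (4 * K0) with hK1
  have hK4 : 4 ≤ K1 := le_max_left _ _
  have hK0 : 4 * K0 ≤ K1 := le_max_right _ _
  have hnl := not_low hno D' (2 * C')
  have hsl : ∀ᶠ i in (U : Filter ℕ), ∀ᶠ j in (U : Filter ℕ), ∀ a ∈ S,
      logHeight₁ (xs (y j) a) ≤ nrs H (y j) / nrs H (y i) := by
    filter_upwards [hU.big 1] with i hi
    rw [Finset.eventually_all]
    intro a ha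
    filter_upwards [hS a ha (1 / nrs H (y i)) (by positivity)] with j hj
    refine hj.trans (le_of_eq ?_)
    ring
  have hPk : ∀ᶠ k in (U : Filter ℕ), eval (xs (y k)) Δ ≠ 0 ∧ K1 ≤ nrs H (y k) :=
    (hU.gen Δ hΔ).and (hU.big K1)
  have hQk : ∀ᶠ i in (U : Filter ℕ), ∀ᶠ j in (U : Filter ℕ), Pr (nrs H) θ1 K1 (y i) (y j) ∧
      (∀ a ∈ S, logHeight₁ (xs (y j) a) ≤ nrs H (y j) / nrs H (y i)) ∧
      ¬ Lo (Finset.univ \ S) D' (2 * C' * (nrs H (y j) / nrs H (y i))) (xs (y j)) := by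
    filter_upwards [hU.al θ1 K1 hθ1p, hsl, hnl] with i a1 a2 a3
    filter_upwards [a1, a2, a3] with j b1 b2 b3 using ⟨b1, b2, b3⟩
  obtain ⟨g, hg1, hg2⟩ := Pool.Agent.Helper83.T3.EXTR.t U _ _ hPk hQk (n + 2)
  obtain ⟨e, hA⟩ := alB (nrs H) hQ (n + 1) θ K0 θ1 K1 hθ1p (min_le_left _ _) (min_le_right _ _)
    hK4 hK0 y g (fun a ha => (hg1 a ha).2) (fun a b hab hb => (hg2 a b hab hb).1)
  have hj2 : ∀ j : Fin (n + 1), j.val + 1 ≤ n + 2 := fun j => by have := j.2; omega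
  have hNpos : ∀ a ≤ n + 2, 0 < nrs H (y (g a)) := fun a ha => by linarith [(hg1 a ha).2]
  have hT : 0 < nrs H (y (g (n + 2))) := hNpos _ le_rfl
  have hB : 0 < nrs H (y (g 0)) := hNpos _ (Nat.zero_le _)
  have hAl : AlS H D f S (n + 1) θ (ε / 2) 2 K0 (fun j => y (g (j.val + 1))) (y (g (n + 2))) e
      (nrs H (y (g (n + 2)))) (nrs H (y (g (n + 2))) / nrs H (y (g 0))) := by
    refine ⟨fun j => hU.nd _, hU.nd _, hA.up, by linarith, hA.near, fun j => ?_, fun j => hoff _,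
      fun j a ha => ?_, hA.big, hA.le, hA.bigT, hA.grow⟩
    · have h2 : (4 : ℝ) ^ e j * (ε * nrs H (y (g (j.val + 1)))) ≤
          4 ^ e j * cH D f (xs (y (g (j.val + 1)))) :=
        mul_le_mul_of_nonneg_left (hex _) (by positivity)
      have h3 := hA.low j
      have h4 : ε * (nrs H (y (g (n + 2))) / 2) ≤ ε * (4 ^ e j * nrs H (y (g (j.val + 1)))) :=
        mul_le_mul_of_nonneg_left h3 hε.le
      linarith
    · exact ((hg2 0 (j.val + 1) (Nat.succ_pos _) (hj2 j)).2.1 a ha).trans (hA.rat' j)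
  rcases h1 _ _ _ _ _ hAl (fun j => (hg1 _ (hj2 j)).1) with ⟨j, hj⟩ | h0
  · refine (hg2 0 (j.val + 1) (Nat.succ_pos _) (hj2 j)).2.2 (lo_mn hj subset_rfl le_rfl ?_)
    have := mul_le_mul_of_nonneg_left (hA.rat j) hC'
    linarith
  · refine (hg2 0 (n + 2) (Nat.succ_pos _) le_rfl).2.2 (lo_mn h0 subset_rfl le_rfl ?_)
    have h2 : 0 ≤ C' * (nrs H (y (g (n + 2))) / nrs H (y (g 0))) := by positivity
    linarith

omit [NumberField K] [DecidableEq K] [DecidableEq σ] in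
theorem nrs_sub {H : ∀ i, (W i).Point → ℝ} (hH : ∀ i, ∀ P, 0 ≤ H i P) (I : Finset σ)
    (z : ∀ i, (W i).Point) :
    nrs (W := fun i : {i // i ∈ I} => W i.1) (fun i => H i.1) (fun i => z i.1) ≤ nrs H z := by
  unfold nrs
  have h1 : ∑ i : {i // i ∈ I}, H i.1 (z i.1) = ∑ i ∈ I, H i (z i) :=
    Finset.sum_coe_sort I fun i => H i (z i)
  rw [h1]
  exact Finset.sum_le_sum_of_subset_of_nonneg (Finset.subset_univ I) fun i _ _ => hH i _

theorem f_step {I : Finset σ} (hF : FST K {i // i ∈ I} (fun i => W i.1))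
    {H : ∀ i, (W i).Point → ℝ} {c₀ : ℝ} (hH : ∀ i, CanH (W i) (H i) c₀) (hQ : IsQuad (nrs H))
    {U : Ultrafilter ℕ} {y : ℕ → ∀ i, (W i).Point} (hU : UD U (nrs H) y)
    (hlow : LowU U (nrs H) y I) (hmin : ∀ a ∈ I, ¬ LowU U (nrs H) y (I.erase a)) {δ : ℝ}
    (hδ : 0 < δ)
    (hfast : ∀ a ∈ I, ∀ᶠ j in (U : Filter ℕ), δ * nrs H (y j) ≤ hx (y j a)) : False := by
  obtain ⟨D1, C1, hL⟩ := hlow
  obtain ⟨Cf, hCf, hfact⟩ := Pool.Agent.Helper22.T3.FACT.t K σ D1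
  set C2 := |C1| + Cf with hC2
  have hC20 : 0 ≤ C2 := by positivity
  obtain ⟨Δ, n, D', C', θ, K0, hΔ, hθ, hC', h1⟩ := hF (fun i => H i.1) c₀ (fun i => hH i.1) D1
    (2 * C2) (δ / 2) (by positivity) (half_pos hδ)
  have hinj : Function.Injective (rename (R := K) (Subtype.val : {i // i ∈ I} → σ)) :=
    rename_injective _ Subtype.val_injective
  have hΔ' : rename (Subtype.val : {i // i ∈ I} → σ) Δ ≠ 0 := fun h =>
    hΔ (hinj (h.trans (map_zero _).symm))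
  have hev : ∀ (x : σ → K) (p : MvPolynomial {i // i ∈ I} K),
      eval x (rename (Subtype.val : {i // i ∈ I} → σ) p) = eval (fun i => x i.1) p := by
    intro x p
    rw [eval_rename]
    rfl
  set θ1 := min (1 / 4) θ with hθ1
  have hθ1p : 0 < θ1 := lt_min (by norm_num) hθ
  set K1 := max 4 (4 * K0) with hK1
  have hK4 : 4 ≤ K1 := le_max_left _ _
  have hK0 : 4 * K0 ≤ K1 := le_max_right _ _
  have hPk : ∀ᶠ k in (U : Filter ℕ), eval (xs (y k)) (rename Subtype.val Δ) ≠ 0 ∧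
      K1 ≤ nrs H (y k) ∧ ∀ a ∈ I, δ * nrs H (y k) ≤ hx (y k a) := by
    have h2 : ∀ᶠ k in (U : Filter ℕ), ∀ a ∈ I, δ * nrs H (y k) ≤ hx (y k a) := by
      rw [Finset.eventually_all]
      exact hfast
    filter_upwards [hU.gen _ hΔ', hU.big K1, h2] with k a1 a2 a3 using ⟨a1, a2, a3⟩
  have hQk : ∀ᶠ i in (U : Filter ℕ), ∀ᶠ j in (U : Filter ℕ), Pr (nrs H) θ1 K1 (y i) (y j) ∧
      Lo I D1 (C1 * (nrs H (y j) / nrs H (y i))) (xs (y j)) ∧
      (∀ a ∈ I, ¬ Lo (I.erase a) D1 (C2 * (nrs H (y j) / nrs H (y i))) (xs (y j))) ∧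
      ∀ a ∈ I, ¬ Lo (I.erase a) D' (2 * C' * (nrs H (y j) / nrs H (y i))) (xs (y j)) := by
    have h2 : ∀ᶠ i in (U : Filter ℕ), ∀ a ∈ I, ∀ᶠ j in (U : Filter ℕ),
        ¬ Lo (I.erase a) D1 (C2 * (nrs H (y j) / nrs H (y i))) (xs (y j)) := by
      rw [Finset.eventually_all]
      exact fun a ha => not_low (hmin a ha) D1 C2
    have h3 : ∀ᶠ i in (U : Filter ℕ), ∀ a ∈ I, ∀ᶠ j in (U : Filter ℕ),
        ¬ Lo (I.erase a) D' (2 * C' * (nrs H (y j) / nrs H (y i))) (xs (y j)) := by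
      rw [Finset.eventually_all]
      exact fun a ha => not_low (hmin a ha) D' (2 * C')
    filter_upwards [hU.al θ1 K1 hθ1p, hL, h2, h3] with i a1 a2 a3 a4
    have a3' : ∀ᶠ j in (U : Filter ℕ), ∀ a ∈ I,
        ¬ Lo (I.erase a) D1 (C2 * (nrs H (y j) / nrs H (y i))) (xs (y j)) := by
      rw [Finset.eventually_all]
      exact a3
    have a4' : ∀ᶠ j in (U : Filter ℕ), ∀ a ∈ I,
        ¬ Lo (I.erase a) D' (2 * C' * (nrs H (y j) / nrs H (y i))) (xs (y j)) := by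
      rw [Finset.eventually_all]
      exact a4
    filter_upwards [a1, a2, a3', a4'] with j b1 b2 b3 b4 using ⟨b1, b2, b3, b4⟩
  obtain ⟨g, hg1, hg2⟩ := Pool.Agent.Helper83.T3.EXTR.t U _ _ hPk hQk (n + 1)
  obtain ⟨e, hA⟩ := alB (nrs H) hQ n θ K0 θ1 K1 hθ1p (min_le_left _ _) (min_le_right _ _)
    hK4 hK0 y g (fun a ha => (hg1 a ha).2.1) (fun a b hab hb => (hg2 a b hab hb).1)
  have hj2 : ∀ j : Fin n, j.val + 1 ≤ n + 1 := fun j => by have := j.2; omega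
  have hNpos : ∀ a ≤ n + 1, 0 < nrs H (y (g a)) := fun a ha => by linarith [(hg1 a ha).2.1]
  have hT : 0 < nrs H (y (g (n + 1))) := hNpos _ le_rfl
  have hB : 0 < nrs H (y (g 0)) := hNpos _ (Nat.zero_le _)
  have hHn : ∀ i, ∀ P, 0 ≤ H i P := fun i P => (hH i).quad.nonneg P
  -- the hypersurfaces
  have hyp : ∀ b, 0 < b → b ≤ n + 1 → ∃ h : MvPolynomial {i // i ∈ I} K, Irreducible h ∧
      (∀ i, degreeOf i h ≤ D1) ∧ (∀ i, degreeOf i h ≠ 0) ∧
      Real.log (PH h) ≤ C2 * (nrs H (y (g b)) / nrs H (y (g 0))) ∧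
      eval (xs (W := fun i : {i // i ∈ I} => W i.1) fun i => y (g b) i.1) h = 0 := by
    intro b hb0 hb
    obtain ⟨b1, b2, b3, -⟩ := hg2 0 b hb0 hb
    have hr1 : 1 ≤ nrs H (y (g b)) / nrs H (y (g 0)) := by
      rw [le_div_iff₀ hB, one_mul]
      have := b1.1
      nlinarith
    obtain ⟨p, p1, p2, p3, p4, p5⟩ := b2
    obtain ⟨q, q1, q2, q3, q4, q5⟩ := hfact p (xs (y (g b))) p1 p2 p4
    have hqP : Real.log (PH q) ≤ C2 * (nrs H (y (g b)) / nrs H (y (g 0))) := by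
      have h2 : C1 * (nrs H (y (g b)) / nrs H (y (g 0))) ≤
          |C1| * (nrs H (y (g b)) / nrs H (y (g 0))) :=
        mul_le_mul_of_nonneg_right (le_abs_self _) (by positivity)
      have h3 : Cf * 1 ≤ Cf * (nrs H (y (g b)) / nrs H (y (g 0))) :=
        mul_le_mul_of_nonneg_left hr1 hCf
      rw [hC2, add_mul]
      linarith
    have hq0 : ∀ i, i ∉ I → degreeOf i q = 0 := by
      intro i hi
      obtain ⟨w, hw⟩ := q4
      have hw0 : w ≠ 0 := by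
        rintro rfl
        exact p1 (by rw [hw, mul_zero])
      have h6 := degreeOf_mul_eq (n := i) q1.ne_zero hw0
      rw [← hw, p3 i hi] at h6
      omega
    obtain ⟨h, rfl⟩ := restr I q hq0
    have hdeg : ∀ i : {i // i ∈ I}, degreeOf i.1 (rename Subtype.val h) = degreeOf i h :=
      fun i => degreeOf_rename_of_injective (p := h) Subtype.val_injective i
    refine ⟨h, irr_of_rename I h q1, fun i => ?_, fun i hi => ?_, ?_, ?_⟩
    · rw [← hdeg]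
      exact q2 _
    · refine b3 i.1 i.2 ⟨_, q1.ne_zero, q2, fun k hk => ?_, q3, hqP⟩
      by_cases hkI : k ∈ I
      · have hki : k = i.1 := by
          by_contra hne
          exact hk (Finset.mem_erase.2 ⟨hne, hkI⟩)
        rw [hki, hdeg, hi]
      · exact hq0 k hkI
    · rw [← Pool.Agent.Helper51.HC.LOR.PH_rename _ Subtype.val_injective h]
      exact hqP
    · rw [← q3, hev]
      rfl
  choose! h hh using hyp
  have hHI : ∀ (z : ∀ i, (W i).Point),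
      nrs (W := fun i : {i // i ∈ I} => W i.1) (fun i => H i.1) (fun i => z i.1) ≤ nrs H z :=
    nrs_sub hHn I
  have hAl : AlF (W := fun i : {i // i ∈ I} => W i.1) (fun i => H i.1) n θ K0
      (fun j i => y (g (j.val + 1)) i.1) (fun i => y (g (n + 1)) i.1) e
      (nrs H (y (g (n + 1)))) (nrs H (y (g (n + 1))) / nrs H (y (g 0))) := by
    refine ⟨fun j i => hU.nd _ _, fun i => hU.nd _ _, fun j => ?_, ?_, fun j => ?_, hA.big, hA.le,
      hA.bigT, hA.grow⟩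
    · exact (mul_le_mul_of_nonneg_left (hHI _) (by positivity)).trans (hA.up j)
    · exact (hHI _).trans (by linarith)
    · exact (hHI ((2 ^ e j) • y (g (j.val + 1)) - y (g (n + 1)))).trans (hA.near j)
  have hfin := h1 _ _ _ _ _ (fun j => h (j.val + 1)) (h (n + 1)) hAl
    (fun j => by
      have := (hg1 _ (hj2 j)).1
      rw [hev] at this
      exact this)
    (by
      have := (hg1 (n + 1) le_rfl).1
      rw [hev] at this
      exact this)
    (fun j => (hh _ (Nat.succ_pos _) (hj2 j)).1) (hh _ (Nat.succ_pos _) le_rfl).1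
    (fun j => (hh _ (Nat.succ_pos _) (hj2 j)).2.1) (hh _ (Nat.succ_pos _) le_rfl).2.1
    (fun j => (hh _ (Nat.succ_pos _) (hj2 j)).2.2.1) (hh _ (Nat.succ_pos _) le_rfl).2.2.1
    (fun j => by
      have h2 := (hh _ (Nat.succ_pos _) (hj2 j)).2.2.2.1
      have h3 := mul_le_mul_of_nonneg_left (hA.rat' j) hC20
      show Real.log (PH (h (j.val + 1))) ≤ _
      linarith)
    (by
      have h2 := (hh _ (Nat.succ_pos _) (le_refl (n + 1))).2.2.2.1
      have h3 : 0 ≤ C2 * (nrs H (y (g (n + 1))) / nrs H (y (g 0))) := by positivity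
      show Real.log (PH (h (n + 1))) ≤ _
      linarith)
    (fun j => (hh _ (Nat.succ_pos _) (hj2 j)).2.2.2.2) (hh _ (Nat.succ_pos _) le_rfl).2.2.2.2
    (fun j i => by
      have h2 := (hg1 _ (hj2 j)).2.2 i.1 i.2
      have h3 : (4 : ℝ) ^ e j * (δ * nrs H (y (g (j.val + 1)))) ≤
          4 ^ e j * hx (y (g (j.val + 1)) i.1) := mul_le_mul_of_nonneg_left h2 (by positivity)
      have h4 := mul_le_mul_of_nonneg_left (hA.low j) hδ.le
      linarith)
    (fun i => by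
      have h2 := (hg1 (n + 1) le_rfl).2.2 i.1 i.2
      have h3 : 0 ≤ δ * nrs H (y (g (n + 1))) := by positivity
      linarith)
  rcases hfin with ⟨j, a, hj⟩ | ⟨a, h0⟩
  · refine (hg2 0 (j.val + 1) (Nat.succ_pos _) (hj2 j)).2.2.2 a.1 a.2
      (lo_mn (lo_sub I a _ _ (xs (y (g (j.val + 1)))) hj) subset_rfl le_rfl ?_)
    have := mul_le_mul_of_nonneg_left (hA.rat j) hC'
    linarith
  · refine (hg2 0 (n + 1) (Nat.succ_pos _) le_rfl).2.2.2 a.1 a.2
      (lo_mn (lo_sub I a _ _ (xs (y (g (n + 1)))) h0) subset_rfl le_rfl ?_)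
    have h2 : 0 ≤ C' * (nrs H (y (g (n + 1))) / nrs H (y (g 0))) := by positivity
    linarith

end

end Pool.Agent.Helper19.TN
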