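import Pool.Agent.Helper19.TN.EndC
import Pool.Agent.Helper42.TN.Defs

/-!
# Project TN (MP_a41896_nt): END, part D (the theorem from P1S, EMS and the F-step)
-/

set_option autoImplicit false

open MvPolynomial

namespace Pool.Agent.Helper19.TN

open WeierstrassCurve Height
open Pool.Agent.Helper29.BL Pool.Agent.Helper92.Ru Pool.Agent.Helper42.SG
open Pool.Agent.Helper5.UN (CodimGT cH)
open Pool.Agent.Helper60.HC (Lo nrs xs Bq eval_Bq Bq_ne_zero)
open Pool.Agent.Helper19.PM

noncomputable section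

variable {K : Type} [Field K] [NumberField K] [DecidableEq K] {σ : Type} [Fintype σ]
  [DecidableEq σ] {W : σ → Affine K}

/-- along the ultrafilter: contradiction -/
theorem core (hP : S_P1S) (hE : EMS) (hW : ∀ i, (W i).IsElliptic)
    (hF : ∀ I : Finset σ, 2 ≤ I.card → FST K {i // i ∈ I} (fun i => W i.1))
    {H : ∀ i, (W i).Point → ℝ} {c₀ : ℝ}
    (hH : ∀ i, CanH (W i) (H i) c₀) (hQ : IsQuad (nrs H)) {D : ℕ} {ι : Type} [Fintype ι]
    {f : ι → MvPolynomial σ K} (hf : ∀ j i, degreeOf i (f j) ≤ D) (hc : CodimGT D f 1)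
    (hD : 1 ≤ D) {ε : ℝ} (hε : 0 < ε) {U : Ultrafilter ℕ} {y : ℕ → ∀ i, (W i).Point}
    (hU : UD U (nrs H) y) (hoff : ∀ k, ∃ t, eval (xs (y k)) (f t) ≠ 0)
    (hex : ∀ k, ε * nrs H (y k) ≤ cH D f (xs (y k))) : False := by
  classical
  set S : Finset σ := Finset.univ.filter fun a => ∀ δ : ℝ, 0 < δ →
    ∀ᶠ j in (U : Filter ℕ), logHeight₁ (xs (y j) a) ≤ δ * nrs H (y j) with hSd
  have hS : ∀ a ∈ S, ∀ δ : ℝ, 0 < δ → ∀ᶠ j in (U : Filter ℕ),
      logHeight₁ (xs (y j) a) ≤ δ * nrs H (y j) := fun a ha => (Finset.mem_filter.1 ha).2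
  have hS' : ∀ a, a ∉ S → ∃ δ : ℝ, 0 < δ ∧ ∀ᶠ j in (U : Filter ℕ),
      δ * nrs H (y j) ≤ hx (y j a) := by
    intro a ha
    by_contra hno
    push Not at hno
    refine ha (Finset.mem_filter.2 ⟨Finset.mem_univ a, fun δ hδ => ?_⟩)
    filter_upwards [hno δ hδ] with j hj
    exact hj.le
  by_cases hcard : 2 ≤ Fintype.card {i // i ∉ S}
  · -- `P1S`, a circuit, the F-step
    have hlow := p1_step hP hW hH hQ hf hc hD hε hU hoff hex S hS hcard
    obtain ⟨I, hI, hmin⟩ := Finset.exists_min_image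
      ((Finset.univ \ S).powerset.filter fun I => LowU U (nrs H) y I) Finset.card
      ⟨Finset.univ \ S, Finset.mem_filter.2 ⟨Finset.mem_powerset.2 subset_rfl, hlow⟩⟩
    obtain ⟨hIS, hIl⟩ := Finset.mem_filter.1 hI
    rw [Finset.mem_powerset] at hIS
    have hIS' : ∀ a ∈ I, a ∉ S := fun a ha => (Finset.mem_sdiff.1 (hIS ha)).2
    have hmin' : ∀ a ∈ I, ¬ LowU U (nrs H) y (I.erase a) := by
      intro a ha hlo
      have h1 := hmin (I.erase a) (Finset.mem_filter.2 ⟨Finset.mem_powerset.2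
        ((Finset.erase_subset _ _).trans hIS), hlo⟩)
      have h2 := Finset.card_erase_lt_of_mem ha
      omega
    choose! δ hδ hfast using fun (a : σ) (ha : a ∈ I) => hS' a (hIS' a ha)
    -- a common `δ`
    have hI2 : 2 ≤ I.card := by
      by_contra hlt
      have h01 : I.card = 0 ∨ I.card = 1 := by omega
      rcases h01 with h0 | h0
      · rw [Finset.card_eq_zero] at h0
        subst h0
        obtain ⟨D', C', hlo⟩ := hIl
        obtain ⟨i, hi⟩ := hlo.exists
        obtain ⟨j, hj⟩ := hi.exists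
        exact Pool.Agent.Helper51.HC.LOR.not_empty _ _ _ hj
      · obtain ⟨a, ha⟩ := Finset.card_eq_one.1 h0
        subst ha
        have haI : a ∈ ({a} : Finset σ) := Finset.mem_singleton_self a
        exact single hU (hδ a haI) (hfast a haI) hIl
    have hIne : I.Nonempty := by
      rw [← Finset.card_pos]
      omega
    obtain ⟨a0, ha0, hmina⟩ := Finset.exists_min_image I δ hIne
    refine f_step (hF I hI2) hH hQ hU hIl hmin' (hδ a0 ha0) fun a ha => ?_
    filter_upwards [hfast a ha, hU.big 0] with j hj hj0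
    exact (mul_le_mul_of_nonneg_right (hmina a ha) hj0).trans hj
  · -- at most one coordinate is not slow
    have hc2 : Fintype.card σ ≤ S.card + 1 := by
      have h1 : Fintype.card {i // i ∉ S} = Fintype.card σ - S.card := by
        rw [Fintype.card_subtype_compl]
        simp
      have h2 : S.card ≤ Fintype.card σ := Finset.card_le_univ S
      omega
    obtain ⟨Δ, C, hΔ, hC, hb⟩ := hE K σ 1 D ι f hf hc S hc2
    set δ := ε / (2 * (C * S.card + 1)) with hδ
    have hδ0 : 0 < δ := by positivity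
    have hsl : ∀ᶠ j in (U : Filter ℕ), ∀ a ∈ S, logHeight₁ (xs (y j) a) ≤ δ * nrs H (y j) := by
      rw [Finset.eventually_all]
      exact fun a ha => hS a ha δ hδ0
    obtain ⟨j, ⟨hj1, hj2⟩, hj3⟩ := ((hsl.and (hU.gen Δ hΔ)).and (hU.big (2 * C / ε + 1))).exists
    have h1 := hb _ hj2
    have h2 := hex j
    have hN0 : 0 ≤ nrs H (y j) := hQ.nonneg _
    have h3 : ∑ i ∈ S, logHeight₁ (xs (y j) i) ≤ S.card * (δ * nrs H (y j)) := by
      have := Finset.sum_le_sum hj1
      rwa [Finset.sum_const, nsmul_eq_mul] at this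
    have h4 : C * (S.card * (δ * nrs H (y j))) ≤ ε / 2 * nrs H (y j) := by
      have h5 : C * S.card * δ ≤ ε / 2 := by
        have h6 : δ * (2 * (C * S.card + 1)) = ε := by
          rw [hδ]
          field_simp
        nlinarith
      have := mul_le_mul_of_nonneg_right h5 hN0
      linarith
    have h5 := mul_le_mul_of_nonneg_left h3 hC
    have h6 : ε / 2 * (2 * C / ε + 1) ≤ ε / 2 * nrs H (y j) :=
      mul_le_mul_of_nonneg_left hj3 (half_pos hε).le
    have h7 : ε / 2 * (2 * C / ε + 1) = C + ε / 2 := by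
      field_simp
    linarith

/-- **END** -/
theorem main_of (hP : S_P1S) (hE : EMS) (hW : ∀ i, (W i).IsElliptic)
    (hF : ∀ I : Finset σ, 2 ≤ I.card → FST K {i // i ∈ I} (fun i => W i.1)) :
    MAINW K σ W := by
  classical
  intro Γ hΓ D ι _ f hf hc ε hε
  have hxn : ∀ z : ∀ i, (W i).Point, 0 ≤ ∑ i, hx (z i) := fun z =>
    Finset.sum_nonneg fun i _ => by
      unfold hx
      exact Height.zero_le_logHeight₁ _
  -- canonical heights
  have hcan' : ∀ i, ∃ (H : (W i).Point → ℝ) (c : ℝ), CanH (W i) H c := fun i => by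
    have := hW i
    exact Pool.Agent.Helper29.BL.th_can K (W i)
  choose H c hH0 using hcan'
  have hcn : ∀ i, 0 ≤ c i := fun i => (abs_nonneg _).trans ((hH0 i).near 0)
  set c₀ := ∑ i, c i with hc₀
  have hc0 : 0 ≤ c₀ := Finset.sum_nonneg fun i _ => hcn i
  have hH : ∀ i, CanH (W i) (H i) c₀ := fun i =>
    ⟨(hH0 i).quad, fun P => ((hH0 i).near P).trans
      (Finset.single_le_sum (fun j _ => hcn j) (Finset.mem_univ i))⟩
  have hQ : IsQuad (nrs H) :=
    Pool.Agent.Helper60.HC.th_QPI.1 σ (fun i => (W i).Point) H fun i => (hH i).quad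
  -- a polynomial which is nonzero only outside the centre
  obtain ⟨E, B, -, -, hJ⟩ := Pool.Agent.Helper60.HC.th_ELOC2 K σ 1 D ι f hf hc
  obtain ⟨P0, hP0, -, -, hP0l⟩ := hJ Finset.univ (by rw [Finset.card_univ]; omega)
  have hoffP : ∀ x : σ → K, eval x P0 ≠ 0 → ∃ t, eval x (f t) ≠ 0 := by
    intro x hx
    by_contra hno
    push Not at hno
    obtain ⟨v⟩ : Nonempty (AbsoluteValue K ℝ) := ⟨AbsoluteValue.trivial⟩
    have h1 := hP0l v x
    have h2 : (⨆ j, v (eval x (f j))) = 0 := by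
      have : (fun j => v (eval x (f j))) = fun _ => 0 := by
        funext j
        rw [hno j, map_zero]
      rw [this]
      exact Real.iSup_const_zero
    rw [h2, mul_zero] at h1
    have h3 : 0 < v (eval x P0) := v.pos hx
    have h4 : 0 < (∏ i, Mv v (x i)) ^ D := by
      refine pow_pos (Finset.prod_pos fun i _ => ?_) _
      unfold Mv
      exact lt_of_lt_of_le one_pos (le_max_left _ _)
    nlinarith [mul_pos h3 h4]
  obtain ⟨cB, hcB, hB⟩ := Pool.Agent.Helper60.HC.th_CHB K σ D ι f hf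
  have hh1 : ∀ z : ∀ i, (W i).Point, ∑ i, hx (z i) ≤ nrs H z + Fintype.card σ * c₀ := by
    intro z
    have : ∑ i, hx (z i) ≤ ∑ i, (H i (z i) + c₀) := Finset.sum_le_sum fun i _ => by
      have := abs_le.1 ((hH i).near (z i))
      linarith
    rw [Finset.sum_add_distrib, Finset.sum_const, Finset.card_univ, nsmul_eq_mul] at this
    exact this
  have hh2 : ∀ z : ∀ i, (W i).Point, nrs H z ≤ ∑ i, hx (z i) + Fintype.card σ * c₀ := by
    intro z
    have : nrs H z ≤ ∑ i, (hx (z i) + c₀) := Finset.sum_le_sum fun i _ => by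
      have := abs_le.1 ((hH i).near (z i))
      linarith
    rw [Finset.sum_add_distrib, Finset.sum_const, Finset.card_univ, nsmul_eq_mul] at this
    exact this
  have hcB' : ∀ z : ∀ i, (W i).Point, eval (xs z) P0 ≠ 0 →
      cH D f (xs z) ≤ D * ∑ i, hx (z i) + cB := fun z hz => (hB (xs z) (hoffP _ hz)).1
  rcases Nat.eq_zero_or_pos D with hD0 | hD
  · refine ⟨P0, cB, hP0, hcB, fun z _ _ hz => ?_⟩
    have h1 := hcB' z hz
    rw [hD0, Nat.cast_zero, zero_mul, zero_add] at h1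
    have h2 : 0 ≤ ε * ∑ i, hx (z i) := mul_nonneg hε.le (hxn z)
    rw [hD0]
    linarith
  by_contra hno
  push Not at hno
  have hn0 : (0 : ℝ) ≤ Fintype.card σ * c₀ := by positivity
  obtain ⟨y, U, hy, hgen, hbig, hal⟩ := Pool.Agent.Helper12.T3.ULT.t
    Pool.Agent.Helper54.SGM.t_CLS K σ (∀ i, (W i).Point) (AddSubgroup.pi Set.univ Γ)
    (Pool.Agent.Helper60.HC.th_QPI.2 σ (fun i => (W i).Point) Γ hΓ) (nrs H) hQ xs
    (fun z => (∀ i, z i ≠ 0 ∧ ps (z i) ≠ 0) ∧ (∃ t, eval (xs z) (f t) ≠ 0) ∧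
      ε * nrs H z ≤ cH D f (xs z)) (by
      intro Z R hZ
      set Z' := Z * P0 * ∏ i, Bq W i with hZ'
      have hZ'0 : Z' ≠ 0 := mul_ne_zero (mul_ne_zero hZ hP0)
        (Finset.prod_ne_zero_iff.2 fun i _ => Bq_ne_zero W i)
      set c' := ε * (Fintype.card σ * c₀) + (D * (|R| + Fintype.card σ * c₀) + cB) with hc'
      have hc'0 : 0 ≤ c' := by positivity
      obtain ⟨z, hz1, hz2, hz3, hz4⟩ := hno Z' c' hZ'0 hc'0
      rw [hZ', map_mul, map_mul, map_prod] at hz3
      have a1 := left_ne_zero_of_mul hz3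
      have a2 := right_ne_zero_of_mul hz3
      have a3 := left_ne_zero_of_mul a1
      have a4 := right_ne_zero_of_mul a1
      have h1 := hh1 z
      have h2 := hh2 z
      refine ⟨z, ?_, ⟨fun i => ⟨hz2 i, fun h0 => ?_⟩, hoffP _ a4, ?_⟩, a3, ?_⟩
      · rw [AddSubgroup.mem_pi]
        exact fun i _ => hz1 i
      · have := (Pool.Agent.Helper12.SGB.th_EUP K (W i)).1 (z i) (hz2 i)
        rw [h0] at this
        have h5 := Finset.prod_ne_zero_iff.1 a2 i (Finset.mem_univ _)
        rw [eval_Bq] at h5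
        exact h5 (by
          show Bf (W i) (xc (z i)) = 0
          rw [← this]; ring)
      · have h3 := mul_le_mul_of_nonneg_left h2 hε.le
        have h4 : 0 ≤ (D : ℝ) * (|R| + Fintype.card σ * c₀) + cB := by positivity
        linarith
      · by_contra hlt
        push Not at hlt
        have h3 := hcB' z a4
        have h4 : (D : ℝ) * ∑ i, hx (z i) ≤ D * (|R| + Fintype.card σ * c₀) := by
          refine mul_le_mul_of_nonneg_left ?_ (Nat.cast_nonneg _)
          have := le_abs_self R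
          linarith
        have h5 : 0 ≤ ε * ∑ i, hx (z i) := mul_nonneg hε.le (hxn z)
        have h6 : 0 ≤ ε * (Fintype.card σ * c₀) := mul_nonneg hε.le hn0
        linarith)
  have hUD : UD U (nrs H) y := ⟨fun k => (hy k).2.1, hgen, hbig, hal⟩
  exact core hP hE hW hF hH hQ hf hc hD hε hUD (fun k => (hy k).2.2.1) fun k => (hy k).2.2.2

omit [Fintype σ] in
/-- the F-step of helper42 gives `FST` for all the subsets of at least two coordinates -/
theorem fst_of (hS : Pool.Agent.Helper42.TN.S_FSTEP) (hW : ∀ i, (W i).IsElliptic)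
    (hN : ∀ i k, i ≠ k → Pool.Agent.Helper42.TN.NonIsog (W i) (W k)) (I : Finset σ)
    (hI : 2 ≤ I.card) : FST K {i // i ∈ I} (fun i => W i.1) := by
  intro H c₀ hH D0 C0 δ hC0 hδ
  have hcI : Fintype.card {i // i ∈ I} = (I.card - 1) + 1 := by
    rw [Fintype.card_coe]
    omega
  obtain ⟨a, i1, hai⟩ : ∃ a i1 : {i // i ∈ I}, i1 ≠ a := by
    have h1 : 1 < I.card := hI
    obtain ⟨a, ha, b, hb, hab⟩ := Finset.one_lt_card.1 h1
    exact ⟨⟨a, ha⟩, ⟨b, hb⟩, fun h => hab (congrArg Subtype.val h).symm⟩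
  obtain ⟨D', C', θ, K0, hθ, hC', h1⟩ := hS K {i // i ∈ I} (fun i => W i.1) (fun i => hW i.1)
    (fun i k hik => hN i.1 k.1 fun h => hik (Subtype.ext h)) H c₀ hH a i1 hai (I.card - 1) hcI D0
    C0 δ hC0 hδ
  refine ⟨1, I.card - 1, D', C', θ, K0, one_ne_zero, hθ, hC', ?_⟩
  intro x x0 e T Q g g0 hA _ _ g1 g2 g3 g4 _ _ g7 g8 g9 g10 g11 _
  obtain ⟨i, h2 | h2⟩ := h1 g g0 x x0 e T Q ⟨hA.nd, hA.nd0, hA.up, hA.up0, hA.near,
    fun j => g11 j i1, g1, g2, g3, g4, g7, g8, g9, g10, hA.big, hA.le, hA.bigT, hA.grow⟩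
  · obtain ⟨j, hj⟩ := h2
    exact Or.inl ⟨j, i, hj⟩
  · exact Or.inr ⟨i, h2⟩

/-- **theorem TN** from P1S, EMS and the F-step -/
theorem mainN (hP : S_P1S) (hE : EMS) (hS : Pool.Agent.Helper42.TN.S_FSTEP)
    (hW : ∀ i, (W i).IsElliptic)
    (hN : ∀ i k, i ≠ k → Pool.Agent.Helper42.TN.NonIsog (W i) (W k)) : MAINW K σ W :=
  main_of hP hE hW fun I hI => fst_of hS hW hN I hI

end

end Pool.Agent.Helper19.TN
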