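import Pool.Agent.Helper19.TN.AsmF
import Pool.Agent.Helper19.TN.AsmFF
import Pool.Agent.Helper19.TN.EndD
import Pool.Agent.Helper19.PM.MainS
import Pool.Agent.Helper3.TN.Main
import Pool.Agent.Helper92.TN.MainI
import Pool.Agent.Helper60.T3.Main
import Pool.Agent.Helper68.T3.Main
import Pool.Agent.Helper94.T3.TAYP
import Pool.Agent.Helper14.TN.CARDN
import Pool.Agent.Helper22.TN.SIEN
import Pool.Agent.Helper25.TN.EXPN
import Pool.Agent.Helper25.TN.PDR
import Pool.Agent.Helper4.TN.CENL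
import Pool.Agent.Helper4.TN.HYPR
import Pool.Agent.Helper66.TN.HYPG
import Pool.Agent.Helper50.TN.VANN
import Pool.Agent.Helper49.TN.BRNN
import Pool.Agent.Helper91.TN.KEYN
import Pool.Agent.Helper79.TN.TAYS
import Pool.Agent.Helper94.TN.LOCN
import Pool.Agent.Helper36.TN.NUMN
import Pool.Agent.Helper72.TN.GLOBN

/-!
# Project TN (MP_a41896_nt): the F-step from the independence only
-/

set_option autoImplicit false

namespace Pool.Agent.Helper19.TN

open Pool.Agent.Helper42.SG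
open Pool.Agent.Helper68.VN hiding xs Good nz
open Pool.Agent.Helper42.TN (S_INDN S_INDF S_FSTEP S_FSTEPF)

theorem th_KEYN : Pool.Agent.Helper42.TN.KEYN :=
  Pool.Agent.Helper91.TN.t_KEYN Pool.Agent.Helper25.TN.t_EXPN
    Pool.Agent.Helper50.TN.t_VANN Pool.Agent.Helper49.TN.t_BRNN
    Pool.Agent.Helper95.VN.t_CNTB Pool.Agent.Helper35.SGC1.nfb

theorem th_AUXN : Pool.Agent.Helper42.TN.AUXN :=
  Pool.Agent.Helper42.TN.auxn Pool.Agent.Helper14.VN.ARRB.t_ARRB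
    (Pool.Agent.Helper22.TN.t_SIEN Pool.Agent.Helper14.TN.t_CARDN) th_KEYN

theorem th_HYPG : Pool.Agent.Helper42.TN.HYPG :=
  Pool.Agent.Helper66.TN.t_HYPG Pool.Agent.Helper4.TN.t_HYPR

theorem th_TAYS : Pool.Agent.Helper42.TN.TAYS :=
  Pool.Agent.Helper79.TN.t_TAYS Pool.Agent.Helper94.T3.TAYP.t_TAYP Pool.Agent.Helper68.T3.th_IFT

theorem th_LAW3 : Pool.Agent.Helper68.T3.LAW3 :=
  Pool.Agent.Helper34.T3.LAW3.t_LAW3 Pool.Agent.Helper12.SGB.th_RPOL Pool.Agent.Helper31.SGT.t_MINC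

theorem th_PDR : Pool.Agent.Helper42.TN.PDR :=
  Pool.Agent.Helper25.TN.PDR.t_PDR Pool.Agent.Helper60.T3.th_RESL

/-- the F-step -/
theorem th_FSTEP : S_FSTEP :=
  fstep th_AUXN th_HYPG th_RELP Pool.Agent.Helper92.TN.MainI.th_ZEN th_TAYS th_LAW3
    (Pool.Agent.Helper94.TN.t_LOCN Pool.Agent.Helper65.SG.th_FRPS)
    (Pool.Agent.Helper72.TN.t_GLOBN t_HHO Pool.Agent.Helper12.PM.t_CHW)
    Pool.Agent.Helper36.TN.t_NUMN Pool.Agent.Helper4.TN.t_CENL th_PDR
    Pool.Agent.Helper12.SGB.th_EDUP Pool.Agent.Helper12.SGB.th_ELAW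
    Pool.Agent.Helper12.SGB.th_ELOC t_LAWH Pool.Agent.Helper12.SGB.th_EUP
    Pool.Agent.Helper40.SGE.mina

/-- the F-step for hypersurfaces without flat directions -/
theorem th_FSTEPF : S_FSTEPF :=
  fstepF th_AUXN th_HYPG th_RELP Pool.Agent.Helper92.TN.MainI.th_ZENF th_TAYS th_LAW3
    (Pool.Agent.Helper94.TN.t_LOCN Pool.Agent.Helper65.SG.th_FRPS)
    (Pool.Agent.Helper72.TN.t_GLOBN t_HHO Pool.Agent.Helper12.PM.t_CHW)
    Pool.Agent.Helper36.TN.t_NUMN Pool.Agent.Helper4.TN.t_CENL th_PDR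
    Pool.Agent.Helper12.SGB.th_EDUP Pool.Agent.Helper12.SGB.th_ELAW
    Pool.Agent.Helper12.SGB.th_ELOC t_LAWH Pool.Agent.Helper12.SGB.th_EUP
    Pool.Agent.Helper40.SGE.mina

/-- **Theorem TN**: all centres of codimension at least two in a product of pairwise non-isogenous elliptic curves -/
theorem th_MAINN (K : Type) [Field K] [NumberField K] [DecidableEq K] (σ : Type) [Fintype σ]
    [DecidableEq σ] (W : σ → WeierstrassCurve.Affine K) (hW : ∀ i, (W i).IsElliptic)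
    (hN : ∀ i k, i ≠ k → Pool.Agent.Helper42.TN.NonIsog (W i) (W k)) : MAINW K σ W :=
  mainN Pool.Agent.Helper19.PM.th_P1S Pool.Agent.Helper19.PM.th_EMS th_FSTEP hW hN

end Pool.Agent.Helper19.TN
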