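import Pool.Agent.Helper19.TN.EndA

/-!
# Project TN (MP_a41896_nt): END, part B (low sets of coordinates along an ultrafilter)
-/

set_option autoImplicit false

open MvPolynomial

namespace Pool.Agent.Helper19.TN

open WeierstrassCurve Height
open Pool.Agent.Helper29.BL Pool.Agent.Helper92.Ru Pool.Agent.Helper42.SG
open Pool.Agent.Helper5.UN (CodimGT cH)
open Pool.Agent.Helper60.HC (Lo nrs xs)
open Pool.Agent.Helper19.PM

noncomputable section

/-- the height of a root -/
theorem root (K : Type) [Field K] [NumberField K] (σ : Type) [Fintype σ] [DecidableEq σ] (D : ℕ) :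
    ∃ C : ℝ, 0 ≤ C ∧ ∀ (a : σ) (A : ℝ) (x : σ → K), Lo {a} D A x → logHeight₁ (x a) ≤ A + C := by
  obtain ⟨C, hC, hF⟩ := Pool.Agent.Helper22.T3.FACT.t K σ D
  refine ⟨C, hC, fun a A x hlo => ?_⟩
  obtain ⟨g, h1, h2, h3, h4, h5⟩ := hlo
  obtain ⟨h, hi, hd, hx, hdvd, hP⟩ := hF g x h1 h2 h4
  -- `X a - C t` divides `h`
  set l : MvPolynomial σ K := X a - MvPolynomial.C (x a) with hl
  have hdeg : ∀ i, i ≠ a → degreeOf i h = 0 := by
    intro i hia
    obtain ⟨q, hq⟩ := hdvd
    have hq0 : q ≠ 0 := by
      rintro rfl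
      exact h1 (by rw [hq, mul_zero])
    have h6 := degreeOf_mul_eq (n := i) hi.ne_zero hq0
    rw [← hq, h3 i (by simpa using hia)] at h6
    omega
  have hr : ∃ p : MvPolynomial {i // i ∈ ({a} : Finset σ)} K, rename Subtype.val p = h :=
    restr {a} h fun i hia => hdeg i (by simpa using hia)
  obtain ⟨p, hp⟩ := hr
  -- as a polynomial in one variable
  set u : Polynomial K := aeval (fun _ => Polynomial.X) p with hu
  have hpu : Polynomial.aeval (X a : MvPolynomial σ K) u = h := by
    rw [hu, ← hp]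
    have : (Polynomial.aeval (X a : MvPolynomial σ K)).comp
        (aeval (fun _ : {i // i ∈ ({a} : Finset σ)} => (Polynomial.X : Polynomial K))) =
        rename Subtype.val := by
      ext i
      have : i.1 = a := Finset.mem_singleton.1 i.2
      simp [this]
    exact DFunLike.congr_fun this p
  have hu0 : u.eval (x a) = 0 := by
    have h6 : eval x (Polynomial.aeval (X a : MvPolynomial σ K) u) = u.eval (x a) := by
      rw [Polynomial.aeval_def, Polynomial.hom_eval₂]
      have : ((eval x).comp (algebraMap K (MvPolynomial σ K))) = RingHom.id K := by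
        ext c
        simp
      rw [this, eval_X]
      exact Polynomial.eval₂_id
    rw [← h6, hpu, hx]
  have hdv : l ∣ h := by
    obtain ⟨w, hw⟩ := Polynomial.dvd_iff_isRoot.2 hu0
    refine ⟨Polynomial.aeval (X a : MvPolynomial σ K) w, ?_⟩
    rw [← hpu, hw, map_mul, map_sub, Polynomial.aeval_X, Polynomial.aeval_C, hl]
    rfl
  have hco : coeff (Finsupp.single a 1) l = 1 ∧ coeff 0 l = - x a := by
    constructor
    · rw [hl, coeff_sub, coeff_X', if_pos rfl, coeff_C, if_neg, sub_zero]
      intro h0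
      have := DFunLike.congr_fun h0 a
      simp at this
    · rw [hl, coeff_sub, coeff_C, if_pos rfl, coeff_X', if_neg, zero_sub]
      intro h0
      have := DFunLike.congr_fun h0 a
      simp at this
  have hlu : ¬ IsUnit l := by
    intro h0
    have h6 : eval x l = 0 := by rw [hl]; simp
    exact (h0.map (eval x)).ne_zero h6
  obtain ⟨q, hq⟩ := hdv
  have hqu : IsUnit q := (hi.isUnit_or_isUnit hq).resolve_left hlu
  obtain ⟨c, hc, hqc⟩ := MvPolynomial.isUnit_iff_eq_C_of_isReduced.1 hqu
  obtain ⟨m1, -, -, m4⟩ := Pool.Agent.Helper8.T3.MC.t K σ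
  have h7 : Real.log (PH l) = Real.log (PH h) := by
    rw [hq, hqc, mul_comm, m4 c l hc.ne_zero]
  have h8 := (m1 l ⟨_, hco.1⟩).2.2 0
  rw [hco.2, logHeight₁_neg, h7] at h8
  linarith

end

end Pool.Agent.Helper19.TN
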