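import Pool.Agent.Helper42.TN.GoalsT
import Pool.Agent.Helper19.PM.AsmPG

/-!
# Project TN (MP_a41896_nt): assembly of the F-step
-/

set_option autoImplicit false

open MvPolynomial

namespace Pool.Agent.Helper19.TN

open WeierstrassCurve Height Height.AdmissibleAbsValues
open Pool.Agent.Helper29.BL Pool.Agent.Helper92.Ru Pool.Agent.Helper42.SG
open Pool.Agent.Helper77.SGC (N0)
open Pool.Agent.Helper60.HC (Lo nrs)
open Pool.Agent.Helper68.VN hiding xs Good nz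
open Pool.Agent.Helper68.T3 (TayC gsup dlt LAW3)
open Pool.Agent.Helper92.SGE (MINA)
open Pool.Agent.Helper19.PM
open Pool.Agent.Helper42.TN

noncomputable section

/-- the choice of `M` -/
theorem countM (n m c k0 h0 D0 : ℕ) (hn : 1 ≤ n) (hm : m = n + 1) : ∃ M : ℕ, 1 ≤ M ∧
    2 * 4 ^ (n * m) * n * c ^ n * k0 * (2 * M + 2) ^ (n * (m - 1) - 1) *
      ((D0 + 1) ^ m * ((2 * n * M) * (1 + m * D0) + 1) ^ (m - 1)) * h0 ^ (n * (m - 1)) ≤
      (M + 1) ^ (n * m) := by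
  subst hm
  rw [Nat.add_sub_cancel]
  set A := 2 * 4 ^ (n * (n + 1)) * n * c ^ n * k0 * 2 ^ (n * n - 1) *
    ((D0 + 1) ^ (n + 1) * (2 * n * (1 + (n + 1) * D0)) ^ n) * h0 ^ (n * n) with hA
  refine ⟨A + 1, Nat.le_add_left _ _, ?_⟩
  set X := A + 1 + 1 with hX
  have h1 : 2 * (A + 1) + 2 = 2 * X := by omega
  have h2 : (2 * n * (A + 1)) * (1 + (n + 1) * D0) + 1 ≤ 2 * n * (1 + (n + 1) * D0) * X := by
    have h3 : 1 ≤ 2 * n * (1 + (n + 1) * D0) := Nat.mul_pos (by omega) (by omega)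
    calc (2 * n * (A + 1)) * (1 + (n + 1) * D0) + 1
        ≤ (2 * n * (A + 1)) * (1 + (n + 1) * D0) + 2 * n * (1 + (n + 1) * D0) := by omega
      _ = 2 * n * (1 + (n + 1) * D0) * X := by
          rw [hX]
          ring
  rw [h1]
  calc 2 * 4 ^ (n * (n + 1)) * n * c ^ n * k0 * (2 * X) ^ (n * n - 1) *
      ((D0 + 1) ^ (n + 1) * ((2 * n * (A + 1)) * (1 + (n + 1) * D0) + 1) ^ n) * h0 ^ (n * n)
      ≤ 2 * 4 ^ (n * (n + 1)) * n * c ^ n * k0 * (2 * X) ^ (n * n - 1) *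
      ((D0 + 1) ^ (n + 1) * (2 * n * (1 + (n + 1) * D0) * X) ^ n) * h0 ^ (n * n) := by
        refine Nat.mul_le_mul_right _ (Nat.mul_le_mul_left _ (Nat.mul_le_mul_left _
          (Nat.pow_le_pow_left h2 _)))
    _ = A * (X ^ (n * n - 1) * X ^ n) := by
        rw [hA, mul_pow, mul_pow (2 * n * (1 + (n + 1) * D0)) X]
        ring
    _ ≤ X * (X ^ (n * n - 1) * X ^ n) := Nat.mul_le_mul_right _ (by omega)
    _ = X ^ (n * (n + 1)) := by
        rw [← pow_add, ← pow_succ']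
        congr 1
        have h4 : 1 ≤ n * n := Nat.mul_pos hn hn
        have h5 : n * (n + 1) = n * n + n := by ring
        omega

set_option maxHeartbeats 1600000 in
/-- The F-step for relations in which all the variables occur, off the bad set. -/
theorem fstep (hAUX : AUXN) (hHYP : HYPG) (hREL : RELP) (hZ : ZEN) (hTAY : TAYS) (hLAW : LAW3)
    (hLOC : LOCN) (hGLOB : GLOBN) (hNUM : NUMN) (hCEN : CENL) (hPDR : PDR) (hEDUP : EDUP)
    (hELAW : ELAW) (hELOC : ELOC) (hLAWH : LAWH) (hEUP : EUP) (hMINA : MINA) : S_FSTEP := by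
  classical
  intro K _ _ _ σ _ _ W hW hNI H c₀ hH a i1 hai n hcn D0 C0 ε hC0 hε
  have : Nonempty σ := ⟨a⟩
  have hm2 : 2 ≤ Fintype.card σ := by
    have : 1 < Fintype.card σ := Fintype.one_lt_card_iff.2 ⟨i1, a, hai⟩
    omega
  have hn1 : 1 ≤ n := by omega
  -- constants
  have hc₀ : 0 ≤ c₀ := (abs_nonneg _).trans ((hH a).near 0)
  obtain ⟨h0, hh0, hZ1⟩ := hZ D0 (Fintype.card σ)
  obtain ⟨c, Ch, hc1, hCh, hHy⟩ := hHYP K σ D0 hm2
  set E : ℕ := 2 * D0 + 9 with hE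
  obtain ⟨k0, hk0⟩ : ∃ k0 : ℕ, 14 + 2 * (E : ℝ) ≤ ((k0 : ℝ) - 1) * ε := by
    obtain ⟨k, hk⟩ := exists_nat_ge ((14 + 2 * (E : ℝ)) / ε + 1)
    refine ⟨k, ?_⟩
    have h1 : (14 + 2 * (E : ℝ)) / ε ≤ (k : ℝ) - 1 := by linarith
    rwa [div_le_iff₀ hε] at h1
  obtain ⟨M, hM, hcount⟩ := countM n (Fintype.card σ) c k0 h0 D0 hn1 hcn
  obtain ⟨CR, hCR, hRe⟩ := hREL K σ D0 (2 * n * M)
  obtain ⟨CA, Bk, hCA, hBk, hA⟩ := hAUX K σ W Unit (wH i1) c n M k0 h0 _ a hn1 hM hm2 hh0 hcount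
  obtain ⟨BT, hBT, hT⟩ := hTAY K σ W D0
  have hU1 := fun i => (hEUP K (W i)).1
  have hU2 := fun i => (hEUP K (W i)).2
  choose BU hBU hBU2 using hU2
  have hE0 : ∀ i, ∃ B : AbsoluteValue K ℝ → ℝ, PlC B ∧ ∀ (v : AbsoluteValue K ℝ)
      (P Q : (W i).Point) (e : ℕ), P ≠ 0 → Q ≠ 0 → (2 ^ e) • P + Q ≠ 0 →
      Mv v (xc P) ^ (2 * 4 ^ e) * Mv v (xc Q) ^ 2 ≤ B v ^ (4 ^ e) *
        max (v (law (W i) e false (xc P) (xc Q) (ps P * ps Q)).1)
          (v (law (W i) e false (xc P) (xc Q) (ps P * ps Q)).2) *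
        Mv v (xc ((2 ^ e) • P + Q)) := fun i => by
    have := hW i
    exact hELOC K (W i)
  choose BE hBE hBE2 using hE0
  have hBUp : PlC (K := K) fun v => ∏ i, BU i v := plc_prod' BU hBU Finset.univ
  have hBEp : PlC (K := K) fun v => ∏ i, BE i v := plc_prod' BE hBE Finset.univ
  have hBL : PlC (K := K) fun v => BT v * ∏ i, BU i v := plc_mul' hBT hBUp
  obtain ⟨Bt, hBt, hLo⟩ := hLOC K σ W Unit (wH i1) n M k0 Bk (fun v => BT v * ∏ i, BU i v)
    (fun v => ∏ i, BE i v) hn1 hBk hBL hBEp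
  obtain ⟨CG, hCG, hGl⟩ := hGLOB K σ Unit (wH i1) n M k0 E Bt BT hBt hBT
  obtain ⟨Cc, hCc, hCe⟩ := hCEN K σ D0
  obtain ⟨Dp, Cp, hCp, hPd⟩ := hPDR K σ D0
  set CH : ℝ := Ch * (1 + C0) with hCH
  have hCH0 : 0 ≤ CH := by positivity
  set CR2 : ℝ := CR * (1 + C0) with hCR2
  have hCR20 : 0 ≤ CR2 := by positivity
  set CA2 : ℝ := CA * (n + CR2 + CH) with hCA2
  have hCA20 : 0 ≤ CA2 := by positivity
  set CA3 : ℝ := CA2 + n * CH with hCA3
  have hCA30 : 0 ≤ CA3 := by positivity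
  obtain ⟨D', C', K1, hC', hZ'⟩ := hZ1 K σ W hW hNI n hn1 rfl hcn C0 hC0 M CA2 hM hCA20
  have hM0 : (0 : ℝ) < M := by exact_mod_cast hM
  obtain ⟨K2, hNu⟩ := hNUM (Fintype.card σ) n M k0 E ε (1 / M) c₀ CG CA3 C0 hn1 hε
    hk0 (by positivity) (by rw [mul_one_div_cancel hM0.ne']) hc₀ hCG hCA30 hC0
  set Kb : ℝ := max (max K1 K2) (max 1 ((Cc + 1) / ε)) with hKb
  have hK1 : K1 ≤ Kb := (le_max_left _ _).trans (le_max_left _ _)
  have hK2 : K2 ≤ Kb := (le_max_right _ _).trans (le_max_left _ _)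
  have hK3 : 1 ≤ Kb := (le_max_left _ _).trans (le_max_right _ _)
  have hK4 : (Cc + 1) / ε ≤ Kb := (le_max_right _ _).trans (le_max_right _ _)
  set Dm : ℕ := max (max D' Dp) D0 with hDm
  set Cm : ℝ := C' + Cp * (1 + C0) + C0 with hCm
  have hCm0 : 0 ≤ Cm := by positivity
  have hCpC : 0 ≤ Cp * (1 + C0) := by positivity
  have hCm1 : C0 ≤ Cm := by rw [hCm]; linarith
  have hCm2 : C' ≤ Cm := by rw [hCm]; linarith
  have hCm3 : Cp * (1 + C0) ≤ Cm := by rw [hCm]; linarith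
  refine ⟨Dm, Cm, 1 / M, Kb, by positivity, hCm0, ?_⟩
  intro g g0 x x0 e T Q hAl
  by_contra hcon
  push Not at hcon
  have hcon1 : ∀ i j, ¬ Lo (Finset.univ.erase i) Dm (Cm * (Q / 4 ^ e j))
      (Pool.Agent.Helper60.HC.xs (x j)) := fun i => (hcon i).1
  have hcon2 : ∀ i, ¬ Lo (Finset.univ.erase i) Dm (Cm * Q)
      (Pool.Agent.Helper60.HC.xs x0) := fun i => (hcon i).2
  have hlo : ∀ (I : Finset σ) (D1 : ℕ) (A1 A2 : ℝ) (y : σ → K), D1 ≤ Dm → A1 ≤ A2 →
      Lo I D1 A1 y → Lo I Dm A2 y := by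
    rintro I D1 A1 A2 y hD hA ⟨p, p1, p2, p3, p4, p5⟩
    exact ⟨p, p1, fun i => (p2 i).trans hD, p3, p4, p5.trans hA⟩
  have hD'm : D' ≤ Dm := (le_max_left _ _).trans (le_max_left _ _)
  have hDpm : Dp ≤ Dm := (le_max_right _ _).trans (le_max_left _ _)
  have hD0m : D0 ≤ Dm := le_max_right _ _
  have hq0 : ∀ j : Fin n, (0 : ℝ) < 4 ^ e j := fun j => by positivity
  have hq1 : ∀ j : Fin n, (1 : ℝ) ≤ 4 ^ e j := fun j => one_le_pow₀ (by norm_num)
  have hQ1 : (1 : ℝ) ≤ Q := (hq1 ⟨0, hn1⟩).trans (hAl.le ⟨0, hn1⟩)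
  have hQ0 : (0 : ℝ) ≤ Q := zero_le_one.trans hQ1
  have hQj : ∀ j, 1 ≤ Q / 4 ^ e j := fun j => by
    rw [le_div_iff₀ (hq0 j), one_mul]
    exact hAl.le j
  have hQj0 : ∀ j, 0 ≤ Q / 4 ^ e j := fun j => zero_le_one.trans (hQj j)
  -- all the variables occur
  have hgd : ∀ j i, degreeOf i (g j) ≠ 0 := by
    intro j i hi
    refine hcon1 i j (hlo _ D0 (C0 * (Q / 4 ^ e j)) _ _ hD0m ?_
      ⟨g j, (hAl.irr j).ne_zero, hAl.deg j, fun k hk => ?_, hAl.on j, hAl.ht j⟩)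
    · exact mul_le_mul_of_nonneg_right hCm1 (hQj0 j)
    · have : k = i := by simpa using hk
      rw [this]
      exact hi
  have hg0d : ∀ i, degreeOf i g0 ≠ 0 := by
    intro i hi
    refine hcon2 i (hlo _ D0 (C0 * Q) _ _ hD0m ?_
      ⟨g0, hAl.irr0.ne_zero, hAl.deg0, fun k hk => ?_, hAl.on0, hAl.ht0⟩)
    · exact mul_le_mul_of_nonneg_right hCm1 hQ0
    · have : k = i := by simpa using hk
      rw [this]
      exact hi
  have hgrow : ∀ j j' : Fin n, j < j' → K1 * 4 ^ e j' ≤ 4 ^ e j := fun j j' h =>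
    le_trans (mul_le_mul_of_nonneg_right hK1 (hq0 j').le) (hAl.grow j j' h)
  have hsq : (sqB e : ℝ) ≤ n * Q := by
    unfold sqB
    push_cast
    calc ∑ j, (4 : ℝ) ^ e j ≤ ∑ _j : Fin n, Q :=
          Finset.sum_le_sum fun j _ => hAl.le j
      _ = n * Q := by
          rw [Finset.sum_const, Finset.card_univ, Fintype.card_fin, nsmul_eq_mul]
  -- the derivatives do not vanish
  have hder : ∀ j, eval (Pool.Agent.Helper60.HC.xs (x j)) (pderiv a (g j)) ≠ 0 := by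
    intro j h
    have h1 := hPd (g j) _ a (C0 * (Q / 4 ^ e j)) (hAl.irr j) (hAl.deg j) (hgd j a) (hAl.on j) h
      (hAl.ht j) (mul_nonneg hC0 (hQj0 j))
    refine hcon1 a j (hlo _ _ _ _ _ hDpm ?_ h1)
    have h2 : Cp * (1 + C0 * (Q / 4 ^ e j)) ≤ Cp * (1 + C0) * (Q / 4 ^ e j) := by
      rw [mul_assoc]
      refine mul_le_mul_of_nonneg_left ?_ hCp
      nlinarith [hQj j]
    exact h2.trans (mul_le_mul_of_nonneg_right hCm3 (hQj0 j))
  -- the sign change
  set x' : Fin n → ∀ i, (W i).Point := fun j i =>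
    if (2 ^ e j) • x j i + x0 i = 0 then -(x j i) else x j i with hx'
  have hx'c : ∀ j i, xc (x' j i) = xc (x j i) := by
    intro j i
    rw [hx']
    dsimp only
    split_ifs
    · exact xc_neg'' _
    · rfl
  have hx'0 : ∀ j i, x' j i ≠ 0 := by
    intro j i
    rw [hx']
    dsimp only
    split_ifs
    · exact neg_ne_zero.mpr (hAl.nd j i).1
    · exact (hAl.nd j i).1
  have hx'p : ∀ j i, ps (x' j i) ≠ 0 := by
    intro j i
    rw [hx']
    dsimp only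
    split_ifs
    · rw [ps_neg'']
      exact neg_ne_zero.mpr (hAl.nd j i).2
    · exact (hAl.nd j i).2
  have hx'H : ∀ j i, H i (x' j i) = H i (x j i) := by
    intro j i
    rw [hx']
    dsimp only
    split_ifs
    · exact (hH i).quad.neg _
    · rfl
  have hx'w : ∀ j i, (2 ^ e j) • x' j i + x0 i ≠ 0 := by
    intro j i
    rw [hx']
    dsimp only
    split_ifs with h
    · have h1 : (2 ^ e j) • (-(x j i)) + x0 i = x0 i + x0 i := by
        rw [smul_neg, eq_neg_of_add_eq_zero_left h, neg_neg]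
      rw [h1]
      have := hW i
      exact two_nsmul_ne hEDUP (hU1 i) (x0 i) (hAl.nd0 i).1 (hAl.nd0 i).2
    · exact h
  have hx'n : ∀ j i, H i ((2 ^ e j) • x' j i - x0 i) ≤ H i ((2 ^ e j) • x j i - x0 i) := by
    intro j i
    rw [hx']
    dsimp only
    split_ifs with h
    · have h1 : (2 ^ e j) • (-(x j i)) - x0 i = 0 := by
        rw [smul_neg, eq_neg_of_add_eq_zero_left h]
        abel
      rw [h1, (hH i).quad.zero]
      exact (hH i).quad.nonneg _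
    · exact le_rfl
  set ξ : Fin n → σ → K := fun j i => xc (x' j i) with hξ
  set ψ : Fin n → σ → K := fun j i => ps (x' j i) with hψ
  set z0 : σ → K := fun i => xc (x0 i) with hz0
  set p0 : σ → K := fun i => ps (x0 i) with hp0
  have hξx : ∀ j, ξ j = Pool.Agent.Helper60.HC.xs (x j) := by
    intro j
    funext i
    exact hx'c j i
  have hcurve : ∀ j i, ψ j i ^ 2 = Bf (W i) (ξ j i) ∧ ψ j i ≠ 0 := fun j i =>
    ⟨hU1 i _ (hx'0 j i), hx'p j i⟩
  have hcurve0 : ∀ i, p0 i ^ 2 = Bf (W i) (z0 i) := fun i => hU1 i _ (hAl.nd0 i).1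
  have hon : ∀ j, eval (ξ j) (g j) = 0 := fun j => by
    rw [hξx j]
    exact hAl.on j
  have hder' : ∀ j, eval (ξ j) (pderiv a (g j)) ≠ 0 := fun j => by
    rw [hξx j]
    exact hder j
  -- the centres
  have hHyj := fun j => hHy (g j) i1 (C0 * (Q / 4 ^ e j)) (mul_nonneg hC0 (hQj0 j))
    (hAl.irr j).ne_zero (hAl.deg j) (hAl.ht j)
  choose t d G htD hd0 hdL hGp hGps hGar hcen using hHyj
  have hfast : ∀ j, Cc + 1 ≤ logHeight₁ (ξ j i1) := by
    intro j
    rw [hξx j]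
    have h1 := hAl.fast j
    have h2 := hAl.le j
    have h3 := hAl.bigT
    have h5 : 0 ≤ logHeight₁ (Pool.Agent.Helper60.HC.xs (x j) i1) := zero_le_logHeight₁ _
    have h4 : ε * (Kb * Q) ≤ Q * logHeight₁ (Pool.Agent.Helper60.HC.xs (x j) i1) :=
      (mul_le_mul_of_nonneg_left h3 hε.le).trans (h1.trans (mul_le_mul_of_nonneg_right h2 h5))
    have h6 : (Cc + 1) ≤ ε * Kb := by
      have := mul_le_mul_of_nonneg_left hK4 hε.le
      rwa [mul_div_cancel₀ _ hε.ne'] at this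
    have hQpos : 0 < Q := by linarith
    have h7 : ε * Kb * Q ≤ logHeight₁ (Pool.Agent.Helper60.HC.xs (x j) i1) * Q := by linarith
    exact h6.trans (le_of_mul_le_mul_right h7 hQpos)
  have htne : ∀ j, ξ j i1 ≠ (t j : K) := by
    intro j h
    have h1 := (hCe i1 (t j) (ξ j) (htD j)).2
    rw [← h] at h1
    linarith [hfast j]
  have hcw : ∀ j, logHeight₁ (ξ j i1) ≤ cW (wH i1) (cenH i1 (t j : K)) (ξ j) := fun j =>
    ((hCe i1 (t j) (ξ j) (htD j)).1 (htne j)).1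
  have hoff : ∀ j, ∃ k, eval (ξ j) (cenH i1 (t j : K) k) ≠ 0 := fun j =>
    ((hCe i1 (t j) (ξ j) (htD j)).1 (htne j)).2
  have hexpL : ∀ j, (4 : ℝ) ^ e j * (Ch * (1 + C0 * (Q / 4 ^ e j))) ≤ CH * Q := by
    intro j
    have h1 : (4 : ℝ) ^ e j * (Ch * (1 + C0 * (Q / 4 ^ e j))) = Ch * (4 ^ e j + C0 * Q) := by
      have := (hq0 j).ne'
      field_simp
    rw [h1, hCH, mul_assoc]
    refine mul_le_mul_of_nonneg_left ?_ hCh
    nlinarith [hAl.le j]
  have hSl : SlowW e d G (CH * Q) := by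
    refine ⟨hd0, hGp, fun j => ?_, fun j φ => ?_, fun j => ?_⟩
    · refine (pow_le_pow_left₀ (Nat.cast_nonneg _) (hdL j) _).trans ?_
      rw [← Real.exp_nat_mul]
      push_cast
      exact Real.exp_le_exp.mpr (hexpL j)
    · refine (pow_le_pow_left₀ (zero_le_one.trans ((hGp j).one_le _)) (hGar j φ) _).trans ?_
      rw [← Real.exp_nat_mul]
      push_cast
      exact Real.exp_le_exp.mpr (hexpL j)
    · exact (mul_le_mul_of_nonneg_left (hGps j) (hq0 j).le).trans (hexpL j)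
  have hG1 : ∀ j v, 1 ≤ G j v := fun j v => (hSl.plc j).one_le v
  -- the relation of `x0`
  have hnl : ¬ Lo (Finset.univ.erase a) D0 (C0 * Q) z0 := by
    intro h
    refine hcon2 a (hlo _ _ _ _ _ hD0m ?_ h)
    exact mul_le_mul_of_nonneg_right hCm1 hQ0
  obtain ⟨U, hUf, ν, hU, hred⟩ := hRe (Finset.univ.erase a) z0 (C0 * Q) (mul_nonneg hC0 hQ0) hnl
    (by
      intro i hi
      have hia : i = a := by simpa using hi
      rw [hia, Finset.insert_erase (Finset.mem_univ a)]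
      exact ⟨g0, hAl.irr0.ne_zero, hAl.deg0, fun k hk => absurd (Finset.mem_univ k) hk, hAl.on0,
        hAl.ht0⟩)
  rw [Finset.card_erase_of_mem (Finset.mem_univ a), Finset.card_univ] at hU
  have hHr : CR * (1 + C0 * Q) ≤ CR2 * Q := by
    rw [hCR2, mul_assoc]
    refine mul_le_mul_of_nonneg_left ?_ hCR
    nlinarith
  have hHr0 : 0 ≤ CR * (1 + C0 * Q) := by positivity
  have hCHQ : 0 ≤ CH * Q := by positivity
  obtain ⟨X, Ψ, hTay, hNrm⟩ := hT n ξ ψ g a i1 t hai htD htne hcurve hAl.deg hon hder'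
  obtain ⟨cc, hcc0, hccI, hccH, hccS, hKEY⟩ := hA g (fun j => cenH i1 (t j : K)) e d G (CH * Q) U ν
    z0 p0 (CR * (1 + C0 * Q)) hSl hCHQ (fun j => hcen j (N0 M (e j))) hU hHr0 hred
  set AA : ℝ := CA * (sqB e + CR * (1 + C0 * Q) + CH * Q) with hAA
  have hAA0 : 0 ≤ AA := by positivity
  have hAA2 : AA ≤ CA2 * Q := by
    have h1 : (sqB e : ℝ) + CR * (1 + C0 * Q) + CH * Q ≤ (n + CR2 + CH) * Q := by
      rw [add_mul, add_mul]
      linarith
    calc AA ≤ CA * ((n + CR2 + CH) * Q) := mul_le_mul_of_nonneg_left h1 hCA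
      _ = CA2 * Q := by
          rw [hCA2]
          ring
  have hz := hZ' a e Q cc ξ ψ z0 p0 g g0 X Ψ hcc0 hccI
    (fun α => (hccH α).trans (Real.exp_le_exp.mpr hAA2)) hccS hTay hcurve hcurve0
    hAl.irr hAl.irr0 hAl.deg hAl.deg0 hgd hg0d hAl.ht hAl.ht0 hAl.on0
    hAl.le hgrow (fun j => hK1.trans (hAl.big j))
  rcases hz with ⟨j, hj⟩ | hb | ⟨α1, hα1, hα2⟩
  · rw [hξx j] at hj
    refine hcon1 a j (hlo _ _ _ _ _ hD'm ?_ hj)
    exact mul_le_mul_of_nonneg_right hCm2 (hQj0 j)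
  · refine hcon2 a (hlo _ _ _ _ _ hD'm ?_ hb)
    exact mul_le_mul_of_nonneg_right hCm2 hQ0
  -- the minimal coefficient
  have hne : ¬ ∀ α, wt (fun h : Fin n × σ => 4 ^ e h.1) α < 1 →
      MvPowerSeries.coeff α (PT W n M 1 e cc (fun _ _ => false) X Ψ z0 p0) = 0 := fun h =>
    hα2 (h α1 hα1)
  have hd1 : ∀ h : Fin n × σ, 1 ≤ 4 ^ e h.1 := fun h => Nat.one_le_pow _ _ (by norm_num)
  obtain ⟨α, hα, hδ0, hmin⟩ := hMINA K _ _ (PT W n M 1 e cc (fun _ _ => false) X Ψ z0 p0) _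
    hd1 hne
  -- the laws
  set ω : Fin n → σ → K := fun j i => xc ((2 ^ e j) • x' j i + x0 i) with hω
  have hlaw : ∀ j i (b : Bool), lawP W e b ξ ψ z0 p0 j i =
      law (W i) (e j) b (xc (x' j i)) (xc (x0 i)) (ps (x' j i) * ps (x0 i)) := by
    intro j i b
    unfold lawP
    rw [mapS_self]
  have h2K : (2 : K) ≠ 0 := two_ne_zero
  have hEL : ∀ j i, _ := fun (j : Fin n) (i : σ) => by
    have := hW i
    exact hELAW K (W i) (x' j i) (x0 i) (e j) h2K (hx'0 j i) (hAl.nd0 i).1 (hx'w j i)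
  have hl0 : ∀ j i, (lawP W e false ξ ψ z0 p0 j i).1 ≠ 0 ∨
      (lawP W e false ξ ψ z0 p0 j i).2 ≠ 0 := by
    intro j i
    rw [hlaw]
    exact (hEL j i).1
  have hl1 : ∀ j i, (lawP W e true ξ ψ z0 p0 j i).1 = ω j i * (lawP W e false ξ ψ z0 p0 j i).1 ∧
      (lawP W e true ξ ψ z0 p0 j i).2 = ω j i * (lawP W e false ξ ψ z0 p0 j i).2 := by
    intro j i
    rw [hlaw, hlaw]
    exact ⟨(hEL j i).2.2.2.1, (hEL j i).2.2.2.2⟩
  have hlc := fun lam => hLAW K σ W n M 1 e cc ξ ψ ω z0 p0 X Ψ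
    (fun h : Fin n × σ => 4 ^ e h.1) α lam hTay.toTayC hcurve0 hd1 hl0 hl1 hmin
  have hEv : ∀ (v : AbsoluteValue K ℝ) j i, Mv v (ξ j i) ^ (2 * 4 ^ e j) * Mv v (z0 i) ^ 2 ≤
      (∏ i, BE i v) ^ (4 ^ e j) * max (v (lawP W e false ξ ψ z0 p0 j i).1)
        (v (lawP W e false ξ ψ z0 p0 j i).2) * Mv v (ω j i) := by
    intro v j i
    rw [hlaw]
    refine (hBE2 i v (x' j i) (x0 i) (e j) (hx'0 j i) (hAl.nd0 i).1 (hx'w j i)).trans ?_
    refine mul_le_mul_of_nonneg_right (mul_le_mul_of_nonneg_right ?_ ?_)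
      (zero_le_one.trans (le_max_left _ _))
    · exact pow_le_pow_left₀ (zero_le_one.trans ((hBE i).one_le v)) (le_prod_plc BE hBE i v) _
    · exact le_max_of_le_left (v.nonneg _)
  have hmono : ∀ (v : AbsoluteValue K ℝ), BT v ≤ BT v * ∏ i, BU i v := fun v =>
    le_mul_of_one_le_right (zero_le_one.trans (hBT.one_le v)) (hBUp.one_le v)
  have hloc : ∀ (v : AbsoluteValue K ℝ) (s : ℝ), (∀ α, v (cc α) ≤ s) → _ := fun v s hs =>
    hLo g (fun j => cenH i1 (t j : K)) G e cc ξ ψ ω z0 p0 a X Ψ α _ v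
      (radN (wH i1) (fun j => cenH i1 (t j : K)) E g a (BT v) v ξ ψ)
      (fun j => rhoW (wH i1) (cenH i1 (t j : K)) v (ξ j)) s
      hKEY hG1 hTay hcurve0 hs (hNrm v).2.1 (hNrm v).1
      (fun j i => by
        have h1 := (hNrm v).2.2.1 j i
        have h2 := hmono v
        have h3 : (0 : ℝ) ≤ Mv v (ξ j i) := zero_le_one.trans (le_max_left _ _)
        exact ⟨NPS_mono h1.1 (mul_le_mul_of_nonneg_right h2 h3),
          NPS_mono h1.2 (mul_le_mul_of_nonneg_right h2 (by positivity))⟩)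
      (fun j k => by
        have h1 := (hNrm v).2.2.2 j k
        refine NPS_mono h1 (mul_le_mul_of_nonneg_left ?_ ((hNrm v).1 j).1.le)
        refine Finset.prod_le_prod (fun i _ => ?_) (fun i _ => ?_)
        · have h3 : (0 : ℝ) ≤ Mv v (ξ j i) := zero_le_one.trans (le_max_left _ _)
          have h4 : 0 ≤ BT v := zero_le_one.trans (hBT.one_le v)
          positivity
        · have h3 : (0 : ℝ) ≤ Mv v (ξ j i) := zero_le_one.trans (le_max_left _ _)
          have h4 : 0 ≤ BT v := zero_le_one.trans (hBT.one_le v)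
          exact pow_le_pow_left₀ (by positivity) (mul_le_mul_of_nonneg_right (hmono v) h3) _)
      (fun i => by
        refine (hBU2 i v (x0 i)).trans (mul_le_mul_of_nonneg_right ?_ (by positivity))
        exact (le_prod_plc BU hBU i v).trans
          (le_mul_of_one_le_left (zero_le_one.trans (hBUp.one_le v)) (hBT.one_le v)))
      (hEv v) hlc
  have hLH : ∀ j i, FS (fun v => Real.log (max (v (lawP W e false ξ ψ z0 p0 j i).1)
        (v (lawP W e false ξ ψ z0 p0 j i).2))) ∧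
      PS (fun v => Real.log (max (v (lawP W e false ξ ψ z0 p0 j i).1)
        (v (lawP W e false ξ ψ z0 p0 j i).2))) = hx ((2 ^ e j) • x' j i - x0 i) := by
    intro j i
    have := hW i
    have h := hLAWH K (W i) (x' j i) (x0 i) (e j) (hx'0 j i) (hAl.nd0 i).1 (hx'w j i)
    rw [hlaw]
    exact h
  have hdl0 : ∀ j, dlt (g j) a (ξ j) (ψ j) ≠ 0 := by
    intro j
    unfold dlt
    exact mul_ne_zero (mul_ne_zero (show (4 : K) ≠ 0 by norm_num)
      (pow_ne_zero _ (hcurve j a).2)) (hder' j)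
  have hglob := hGl (fun j => cenH i1 (t j : K)) G e _ cc AA ξ ψ z0 g a
    (fun j i => lawP W e false ξ ψ z0 p0 j i) α _ hSl.plc hcc0
    hAA0 hccI hccH hδ0 hl0 (fun j i => (hLH j i).1) hoff hdl0 hloc
  set LL : ℝ := ∑ j, (4 : ℝ) ^ e j * PS (fun v => Real.log (G j v)) with hLL
  have hLL2 : LL ≤ n * CH * Q := by
    calc LL ≤ ∑ _j : Fin n, CH * Q := Finset.sum_le_sum fun j _ => hSl.ps j
      _ = n * CH * Q := by
          rw [Finset.sum_const, Finset.card_univ, Fintype.card_fin, nsmul_eq_mul]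
          ring
  have hAA3 : AA + LL ≤ CA3 * Q := by
    rw [hCA3, add_mul]
    exact add_le_add hAA2 hLL2
  -- the numbers
  have hnear := fun i (P : (W i).Point) => abs_le.mp ((hH i).near P)
  have hcard : (∑ _i : σ, c₀) = Fintype.card σ * c₀ := by
    rw [Finset.sum_const, Finset.card_univ, nsmul_eq_mul]
  refine hNu σ (fun j => 4 ^ e j) (fun j => nrs H (x j))
    (fun j => cW (wH i1) (cenH i1 (t j : K)) (ξ j))
    (fun j => ∑ i, hx ((2 ^ e j) • x' j i - x0 i)) (fun j => Real.log (PH (g j))) Q T (AA + LL)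
    (∑ i, logHeight₁ (z0 i)) (fun h => logHeight₁ (ξ h.1 h.2)) (fun h => (α h : ℝ)) rfl
    (fun j => ⟨hq1 j, hAl.le j, hK2.trans (hAl.big j)⟩) ?_ ?_ ?_ ?_ ?_ ?_ ?_ ?_ ?_ ?_ hAA3 ?_ ?_
  · exact (mul_le_mul_of_nonneg_right hK2 hQ0).trans hAl.bigT
  · exact fun j => ⟨Finset.sum_nonneg fun i _ => (hH i).quad.nonneg _, hAl.up j⟩
  · intro j
    show ε * T ≤ 4 ^ e j * cW (wH i1) (cenH i1 (t j : K)) (ξ j)
    refine (hAl.fast j).trans (mul_le_mul_of_nonneg_left ?_ (hq0 j).le)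
    rw [← hξx j]
    exact hcw j
  · intro j
    exact cW_nn _ _ (ξ j)
  · intro j
    show ∑ i, hx ((2 ^ e j) • x' j i - x0 i) ≤ 1 / M * T + Fintype.card σ * c₀
    rw [← hcard]
    calc ∑ i, hx ((2 ^ e j) • x' j i - x0 i)
        ≤ ∑ i, (H i ((2 ^ e j) • x j i - x0 i) + c₀) := by
          refine Finset.sum_le_sum fun i _ => ?_
          have h1 := hnear i ((2 ^ e j) • x' j i - x0 i)
          have h2 := hx'n j i
          linarith [h1.1, h1.2]
      _ = nrs H ((2 ^ e j) • x j - x0) + ∑ _i : σ, c₀ := by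
          rw [Finset.sum_add_distrib]; rfl
      _ ≤ _ := by linarith [hAl.near j]
  · show ∑ i, logHeight₁ (z0 i) ≤ 2 * T + Fintype.card σ * c₀
    rw [← hcard]
    calc ∑ i, logHeight₁ (z0 i) ≤ ∑ i, (H i (x0 i) + c₀) := by
          refine Finset.sum_le_sum fun i _ => ?_
          have h1 := hnear i (x0 i)
          have h2 : hx (x0 i) = logHeight₁ (z0 i) := rfl
          linarith [h1.1, h1.2]
      _ = nrs H x0 + ∑ _i : σ, c₀ := by
          rw [Finset.sum_add_distrib]; rfl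
      _ ≤ _ := by linarith [hAl.up0]
  · intro h
    exact zero_le_logHeight₁ _
  · intro j
    show ∑ i, logHeight₁ (ξ j i) ≤ nrs H (x j) + Fintype.card σ * c₀
    rw [← hcard]
    calc ∑ i, logHeight₁ (ξ j i) ≤ ∑ i, (H i (x j i) + c₀) := by
          refine Finset.sum_le_sum fun i _ => ?_
          have h1 := hnear i (x' j i)
          have h2 : hx (x' j i) = logHeight₁ (ξ j i) := rfl
          have h3 := hx'H j i
          linarith [h1.1, h1.2]
      _ = _ := by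
          rw [Finset.sum_add_distrib]; rfl
  · exact fun h => Nat.cast_nonneg _
  · have h1 : wt (fun h : Fin n × σ => 4 ^ e h.1) α =
        ∑ h : Fin n × σ, (α h : ℝ) / 4 ^ e h.1 := by
      unfold wt
      refine Finset.sum_congr rfl fun h _ => ?_
      push_cast
      rfl
    rw [← h1]
    exact hα
  · intro j
    have h1 := mul_le_mul_of_nonneg_left (hAl.ht j) (hq0 j).le
    refine h1.trans (le_of_eq ?_)
    have := (hq0 j).ne'
    field_simp
  · have h1 : ∑ j, (M * (∑ i, hx ((2 ^ e j) • x' j i - x0 i)) +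
          ((4 : ℝ) ^ e j + 2) * ∑ i, logHeight₁ (ξ j i)) =
        ∑ j, ∑ i, (M * PS (fun v => Real.log (max (v (lawP W e false ξ ψ z0 p0 j i).1)
          (v (lawP W e false ξ ψ z0 p0 j i).2))) + ((4 : ℝ) ^ e j + 2) * logHeight₁ (ξ j i)) := by
      refine Finset.sum_congr rfl fun j _ => ?_
      rw [Finset.sum_add_distrib, ← Finset.mul_sum, ← Finset.mul_sum]
      refine congrArg₂ _ (congrArg _ (Finset.sum_congr rfl fun i _ => ?_)) rfl
      rw [(hLH j i).2]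
    have h2 : ((sqB e : ℕ) : ℝ) = ∑ j, (4 : ℝ) ^ e j := by
      unfold sqB
      push_cast
      rfl
    rw [h2] at hglob
    rw [h1]
    have h3 : (∑ j, (4 : ℝ) ^ e j) + (AA + LL) = (∑ j, (4 : ℝ) ^ e j) + AA + LL :=
      (add_assoc _ _ _).symm
    rw [h3]
    exact hglob

end

end Pool.Agent.Helper19.TN
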