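import Pool.Agent.Helper19.PM.GoalsS
import Pool.Agent.Helper60.HC.Main3
import Pool.Agent.Helper12.T3.ULT
import Pool.Agent.Helper83.T3.EXTR
import Pool.Agent.Helper22.T3.FACT
import Pool.Agent.Helper8.T3.MC
import Pool.Agent.Helper13.SGE.QTR

/-!
# Project TN (MP_a41896_nt): END, part A (definitions, aligned blocks, rules for low coordinates)
-/

set_option autoImplicit false

open MvPolynomial

namespace Pool.Agent.Helper19.TN

open WeierstrassCurve Height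
open Pool.Agent.Helper29.BL Pool.Agent.Helper92.Ru Pool.Agent.Helper42.SG
open Pool.Agent.Helper5.UN (CodimGT cH)
open Pool.Agent.Helper60.HC (Lo nrs xs)

noncomputable section

/-! ## Definitions -/

section defs

/-- data for the F-step: `n` points `x j`, a point `x0`, `2^(e j) x j` near `x0`, `T ~ |x0|²`, the scale `Q` -/
structure AlF {K : Type} [Field K] [NumberField K] [DecidableEq K] {σ : Type} [Fintype σ]
    {W : σ → Affine K} (H : ∀ i, (W i).Point → ℝ) (n : ℕ) (θ K0 : ℝ)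
    (x : Fin n → ∀ i, (W i).Point) (x0 : ∀ i, (W i).Point) (e : Fin n → ℕ) (T Q : ℝ) : Prop where
  nd : ∀ j i, x j i ≠ 0 ∧ ps (x j i) ≠ 0
  nd0 : ∀ i, x0 i ≠ 0 ∧ ps (x0 i) ≠ 0
  up : ∀ j, (4 : ℝ) ^ e j * nrs H (x j) ≤ 2 * T
  up0 : nrs H x0 ≤ 2 * T
  near : ∀ j, nrs H ((2 ^ e j) • x j - x0) ≤ θ * T
  big : ∀ j, K0 ≤ (4 : ℝ) ^ e j
  le : ∀ j, (4 : ℝ) ^ e j ≤ Q
  bigT : K0 * Q ≤ T
  grow : ∀ j j', j < j' → K0 * 4 ^ e j' ≤ 4 ^ e j

/-- **the F-step** for `W`: points on hypersurfaces of slow height in which all the coordinates occur, all the coordinates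
of positive proportion of the height: a proper subset of the coordinates of some point is low -/
def FST (K : Type) [Field K] [NumberField K] [DecidableEq K] (σ : Type) [Fintype σ]
    [DecidableEq σ] (W : σ → Affine K) : Prop :=
  ∀ (H : ∀ i, (W i).Point → ℝ) (c₀ : ℝ), (∀ i, CanH (W i) (H i) c₀) →
    ∀ (D0 : ℕ) (C0 δ : ℝ), 0 ≤ C0 → 0 < δ →
    ∃ (Δ : MvPolynomial σ K) (n D' : ℕ) (C' θ K0 : ℝ), Δ ≠ 0 ∧ 0 < θ ∧ 0 ≤ C' ∧
      ∀ (x : Fin n → ∀ i, (W i).Point) (x0 : ∀ i, (W i).Point) (e : Fin n → ℕ) (T Q : ℝ)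
        (g : Fin n → MvPolynomial σ K) (g0 : MvPolynomial σ K), AlF H n θ K0 x x0 e T Q →
        (∀ j, eval (xs (x j)) Δ ≠ 0) → eval (xs x0) Δ ≠ 0 →
        (∀ j, Irreducible (g j)) → Irreducible g0 →
        (∀ j i, degreeOf i (g j) ≤ D0) → (∀ i, degreeOf i g0 ≤ D0) →
        (∀ j i, degreeOf i (g j) ≠ 0) → (∀ i, degreeOf i g0 ≠ 0) →
        (∀ j, Real.log (PH (g j)) ≤ C0 * (Q / 4 ^ e j)) → Real.log (PH g0) ≤ C0 * Q →
        (∀ j, eval (xs (x j)) (g j) = 0) → eval (xs x0) g0 = 0 →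
        (∀ j i, δ * T ≤ 4 ^ e j * hx (x j i)) → (∀ i, δ * T ≤ hx (x0 i)) →
        (∃ j a, Lo (Finset.univ.erase a) D' (C' * (Q / 4 ^ e j)) (xs (x j))) ∨
          ∃ a, Lo (Finset.univ.erase a) D' (C' * Q) (xs x0)

/-- the theorem for `W` and all centres of codimension `≥ 2` -/
def MAINW (K : Type) [Field K] [NumberField K] [DecidableEq K] (σ : Type) [Fintype σ]
    [DecidableEq σ] (W : σ → Affine K) : Prop :=
  ∀ Γ : ∀ i, AddSubgroup (W i).Point,
    (∀ i, (Γ i).FG) → ∀ (D : ℕ) (ι : Type) [Fintype ι] (f : ι → MvPolynomial σ K),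
    (∀ j i, degreeOf i (f j) ≤ D) → CodimGT D f 1 →
    ∀ ε : ℝ, 0 < ε → ∃ (Z : MvPolynomial σ K) (c : ℝ), Z ≠ 0 ∧ 0 ≤ c ∧
      ∀ z : ∀ i, (W i).Point, (∀ i, z i ∈ Γ i) → (∀ i, z i ≠ 0) → eval (xs z) Z ≠ 0 →
        cH D f (xs z) ≤ ε * ∑ i, hx (z i) + c

/-- aligned blocks in a group with a quadratic function -/
structure AlB {G : Type} [AddCommGroup G] (N : G → ℝ) (n : ℕ) (θ K0 : ℝ) (x : Fin n → G) (x0 : G)
    (e : Fin n → ℕ) (T Q B : ℝ) : Prop where
  eT : N x0 = T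
  low : ∀ j, T / 2 ≤ (4 : ℝ) ^ e j * N (x j)
  up : ∀ j, (4 : ℝ) ^ e j * N (x j) ≤ 2 * T
  near : ∀ j, N ((2 ^ e j) • x j - x0) ≤ θ * T
  big : ∀ j, K0 ≤ (4 : ℝ) ^ e j
  le : ∀ j, (4 : ℝ) ^ e j ≤ Q
  bigT : K0 * Q ≤ T
  grow : ∀ j j', j < j' → K0 * 4 ^ e j' ≤ 4 ^ e j
  rat : ∀ j, Q / 4 ^ e j ≤ 2 * (N (x j) / B)
  rat' : ∀ j, N (x j) / B ≤ 2 * (Q / 4 ^ e j)
  eQ : Q = N x0 / B

/-- the pair property of an aligned sequence -/
def Pr {G : Type} [AddCommGroup G] (N : G → ℝ) (θ K1 : ℝ) (a b : G) : Prop :=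
  K1 * N a ≤ N b ∧ ∃ e : ℕ, N ((2 ^ e) • a - b) ≤ θ ^ 2 * N b

end defs

theorem alB {G : Type} [AddCommGroup G] (N : G → ℝ) (hN : IsQuad N) (n : ℕ) (θ K0 θ1 K1 : ℝ)
    (hθ1 : 0 < θ1) (h14 : θ1 ≤ 1 / 4) (hθ : θ1 ≤ θ) (hK4 : 4 ≤ K1) (hK0 : 4 * K0 ≤ K1)
    (y : ℕ → G) (g : ℕ → ℕ) (hB : ∀ a ≤ n + 1, K1 ≤ N (y (g a)))
    (hP : ∀ a b, a < b → b ≤ n + 1 → Pr N θ1 K1 (y (g a)) (y (g b))) :
    ∃ e : Fin n → ℕ, AlB N n θ K0 (fun j => y (g (j.val + 1))) (y (g (n + 1))) e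
      (N (y (g (n + 1)))) (N (y (g (n + 1))) / N (y (g 0))) (N (y (g 0))) := by
  have hj1 : ∀ j : Fin n, j.val + 1 < n + 1 := fun j => by have := j.2; omega
  choose e he using fun j : Fin n => (hP (j.val + 1) (n + 1) (hj1 j) le_rfl).2
  have hpos : ∀ a ≤ n + 1, 0 < N (y (g a)) := fun a ha => by linarith [hB a ha]
  have hT : 0 < N (y (g (n + 1))) := hpos _ le_rfl
  have hb : 0 < N (y (g 0)) := hpos _ (Nat.zero_le _)
  have hx : ∀ j : Fin n, 0 < N (y (g (j.val + 1))) := fun j => hpos _ (hj1 j).le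
  have hq : ∀ j, N (y (g (n + 1))) / 2 ≤ (4 : ℝ) ^ e j * N (y (g (j.val + 1))) ∧
      (4 : ℝ) ^ e j * N (y (g (j.val + 1))) ≤ 2 * N (y (g (n + 1))) := by
    intro j
    obtain ⟨h1, h2⟩ := Pool.Agent.Helper13.SGE.qtr G N hN (e j) _ _ θ1 hθ1.le (by linarith) (he j)
    constructor
    · refine le_trans ?_ h1
      have : 1 / 2 ≤ (1 - θ1) ^ 2 := by nlinarith
      nlinarith
    · refine h2.trans ?_
      have : (1 + θ1) ^ 2 ≤ 2 := by nlinarith
      nlinarith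
  have h4 : ∀ j, (0 : ℝ) < 4 ^ e j := fun j => by positivity
  refine ⟨e, rfl, fun j => (hq j).1, fun j => (hq j).2, fun j => (he j).trans ?_, fun j => ?_,
    fun j => ?_, ?_, fun j j' hjj => ?_, fun j => ?_, fun j => ?_, rfl⟩
  · refine mul_le_mul_of_nonneg_right ?_ hT.le
    nlinarith
  · have h1 := (hP (j.val + 1) (n + 1) (hj1 j) le_rfl).1
    have h2 := (hq j).1
    have h3 : K1 / 2 * N (y (g (j.val + 1))) ≤ 4 ^ e j * N (y (g (j.val + 1))) := by linarith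
    have h5 := le_of_mul_le_mul_right h3 (hx j)
    linarith
  · rw [le_div_iff₀ hb]
    have h1 := (hP 0 (j.val + 1) (Nat.succ_pos _) (hj1 j).le).1
    have h2 := (hq j).2
    have h3 : (4 : ℝ) ^ e j * (K1 * N (y (g 0))) ≤ 4 ^ e j * N (y (g (j.val + 1))) :=
      mul_le_mul_of_nonneg_left h1 (h4 j).le
    have h5 : 0 ≤ (4 : ℝ) ^ e j * N (y (g 0)) := by positivity
    nlinarith
  · rw [← mul_div_assoc, div_le_iff₀ hb, mul_comm]
    refine mul_le_mul_of_nonneg_left ?_ hT.le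
    have := hB 0 (Nat.zero_le _)
    linarith
  · have hjv : j.val + 1 < j'.val + 1 := by
      have : j.val < j'.val := hjj
      omega
    have h1 := (hP (j.val + 1) (j'.val + 1) hjv (hj1 j').le).1
    have h2 := (hq j).1
    have h3 := (hq j').2
    have h5 : (4 : ℝ) ^ e j' * (K1 * N (y (g (j.val + 1)))) ≤
        4 ^ e j' * N (y (g (j'.val + 1))) := mul_le_mul_of_nonneg_left h1 (h4 j').le
    have h6 : (K0 * 4 ^ e j') * N (y (g (j.val + 1))) ≤ 4 ^ e j * N (y (g (j.val + 1))) := by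
      have h7 : 0 ≤ (4 : ℝ) ^ e j' * N (y (g (j.val + 1))) := mul_nonneg (h4 j').le (hx j).le
      nlinarith
    exact le_of_mul_le_mul_right h6 (hx j)
  · rw [div_div, div_le_iff₀ (mul_pos hb (h4 j))]
    have h2 := (hq j).1
    have h3 : 2 * (N (y (g (j.val + 1))) / N (y (g 0))) * (N (y (g 0)) * 4 ^ e j) =
        2 * (4 ^ e j * N (y (g (j.val + 1)))) := by
      field_simp
    rw [h3]
    linarith
  · rw [div_le_iff₀ hb]
    have h3 : 2 * (N (y (g (n + 1))) / N (y (g 0)) / 4 ^ e j) * N (y (g 0)) =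
        2 * N (y (g (n + 1))) / 4 ^ e j := by
      field_simp
    rw [h3, le_div_iff₀ (h4 j), mul_comm]
    exact (hq j).2

/-! ## Rules for `Lo` -/

section lo

variable {K : Type} [Field K] [NumberField K] {σ : Type} [Fintype σ] [DecidableEq σ]

theorem lo_mn {x : σ → K} {I I' : Finset σ} {D D' : ℕ} {A A' : ℝ} (h : Lo I D A x) (hI : I ⊆ I')
    (hD : D ≤ D') (hA : A ≤ A') : Lo I' D' A' x :=
  Pool.Agent.Helper51.HC.LOR.mono x I I' D D' A A' hI hD hA h

/-- from the coordinates of `I` without `a` to all the coordinates -/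
theorem lo_sub (I : Finset σ) (a : {i // i ∈ I}) (D : ℕ) (A : ℝ) (x : σ → K)
    (h : Lo (Finset.univ.erase a) D A (fun i : {i // i ∈ I} => x i.1)) : Lo (I.erase a.1) D A x := by
  obtain ⟨g, h1, h2, h3, h4, h5⟩ := h
  have hinj : Function.Injective (Subtype.val : {i // i ∈ I} → σ) := Subtype.val_injective
  have hout : ∀ i, i ∉ I → degreeOf i (rename Subtype.val g) = 0 := fun i hi =>
    Pool.Agent.Helper51.HC.LOR.deg_out _ _ _ (by rintro ⟨j, hj⟩; exact hi (hj ▸ j.2))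
  refine ⟨rename Subtype.val g, ?_, ?_, ?_, ?_, ?_⟩
  · intro h
    exact h1 (rename_injective _ hinj (h.trans (map_zero _).symm))
  · intro i
    by_cases hi : i ∈ I
    · have := degreeOf_rename_of_injective (p := g) hinj ⟨i, hi⟩
      rw [show (i : σ) = Subtype.val (⟨i, hi⟩ : {i // i ∈ I}) from rfl, this]
      exact h2 _
    · rw [hout i hi]
      exact Nat.zero_le _
  · intro i hi
    by_cases hiI : i ∈ I
    · have hia : i = a.1 := by
        by_contra hne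
        exact hi (Finset.mem_erase.2 ⟨hne, hiI⟩)
      have := degreeOf_rename_of_injective (p := g) hinj a
      rw [hia, this]
      exact h3 a (Finset.notMem_erase _ _)
    · exact hout i hiI
  · rw [eval_rename]
    exact h4
  · rw [Pool.Agent.Helper51.HC.LOR.PH_rename _ hinj]
    exact h5

/-- restriction of a polynomial in the variables of `I` -/
theorem restr (I : Finset σ) (h : MvPolynomial σ K) (h0 : ∀ i, i ∉ I → degreeOf i h = 0) :
    ∃ h' : MvPolynomial {i // i ∈ I} K, rename Subtype.val h' = h := by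
  refine exists_rename_eq_of_vars_subset_range h Subtype.val Subtype.val_injective ?_
  intro i hi
  by_contra hc
  have hiI : i ∉ I := fun hI => hc ⟨⟨i, hI⟩, rfl⟩
  have h1 := h0 i hiI
  rw [degreeOf_def, Multiset.count_eq_zero] at h1
  refine h1 ?_
  have h2 : i ∈ h.vars := hi
  rw [vars_def, Multiset.mem_toFinset] at h2
  convert h2

theorem irr_of_rename (I : Finset σ) (h' : MvPolynomial {i // i ∈ I} K)
    (h : Irreducible (rename (Subtype.val : {i // i ∈ I} → σ) h')) : Irreducible h' := by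
  have hinj : Function.Injective (rename (R := K) (Subtype.val : {i // i ∈ I} → σ)) :=
    rename_injective _ Subtype.val_injective
  have hunit : ∀ p : MvPolynomial {i // i ∈ I} K,
      IsUnit (rename (Subtype.val : {i // i ∈ I} → σ) p) → IsUnit p := by
    intro p hp
    obtain ⟨c, hc, hp'⟩ := MvPolynomial.isUnit_iff_eq_C_of_isReduced.1 hp
    rw [MvPolynomial.isUnit_iff_eq_C_of_isReduced]
    refine ⟨c, hc, hinj ?_⟩
    rw [hp', rename_C]
  constructor
  · intro hu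
    exact h.not_isUnit (hu.map _)
  · intro a b hab
    rcases h.isUnit_or_isUnit (a := rename Subtype.val a) (b := rename Subtype.val b)
      (by rw [← map_mul, ← hab]) with h1 | h1
    · exact Or.inl (hunit _ h1)
    · exact Or.inr (hunit _ h1)

end lo

end

end Pool.Agent.Helper19.TN
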